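import Pool.Agent.H98.FPP.Prob

/-!
# MP_ae266a_pr : existence of the time constant
-/

open MeasureTheory ProbabilityTheory Filter Topology Set

namespace H98.FPP

/-- horizontal translation -/
def trans (m : ℕ) (p : ℤ × ℤ) : ℤ × ℤ := (p.1 + m, p.2)

theorem trans_inj (m : ℕ) : Function.Injective (trans m) := by
  rintro ⟨a, b⟩ ⟨c, d⟩ h
  simp only [trans, Prod.mk.injEq, add_left_inj] at h
  exact Prod.ext h.1 h.2

/-- translation as a graph homomorphism -/
def transHom (m : ℕ) : lattice →g lattice where
  toFun := trans m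
  map_rel' := by
    intro p q h
    have h' : |p.1 - q.1| + |p.2 - q.2| = 1 := h
    change |(p.1 + m) - (q.1 + m)| + |p.2 - q.2| = 1
    rw [add_sub_add_right_eq_sub]
    exact h'

theorem transHom_apply (m : ℕ) (p : ℤ × ℤ) : transHom m p = (p.1 + m, p.2) := rfl

theorem passage_add {v : Sym2 (ℤ × ℤ) → ℝ} (hv : ∀ e ∈ lattice.edgeSet, 0 ≤ v e) (m n : ℕ) :
    passage v (m + n) ≤ passage v m + passage (fun e => v (Sym2.map (transHom m) e)) n := by
  have := walk_exists m
  have := walk_exists n
  have hmap : ∀ e ∈ lattice.edgeSet, Sym2.map (transHom m) e ∈ lattice.edgeSet := by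
    intro e
    induction e with
    | _ x y =>
      intro he
      exact (transHom m).map_adj he
  have key : ∀ (p : lattice.Walk (0, 0) ((m : ℤ), 0)) (q : lattice.Walk (0, 0) ((n : ℤ), 0)),
      passage v (m + n) ≤ (p.edges.map v).sum +
        (q.edges.map (fun e => v (Sym2.map (transHom m) e))).sum := by
    intro p q
    have e1 : transHom m (0, 0) = ((m : ℤ), 0) := by simp [transHom_apply]
    have e2 : transHom m ((n : ℤ), 0) = (((m + n : ℕ) : ℤ), 0) := by
      simp [transHom_apply, add_comm]
    have := passage_le hv (p.append ((q.map (transHom m)).copy e1 e2))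
    rw [SimpleGraph.Walk.edges_append, SimpleGraph.Walk.edges_copy, SimpleGraph.Walk.edges_map,
      List.map_append, List.sum_append, List.map_map] at this
    exact this
  have h1 : ∀ q : lattice.Walk (0, 0) ((n : ℤ), 0), passage v (m + n) -
      (q.edges.map (fun e => v (Sym2.map (transHom m) e))).sum ≤ passage v m := by
    intro q
    refine le_ciInf fun p => ?_
    have := key p q
    linarith
  have h2 : passage v (m + n) - passage v m ≤ passage (fun e => v (Sym2.map (transHom m) e)) n := by
    refine le_ciInf fun q => ?_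
    have := h1 q
    linarith
  linarith

/-- extension by zero -/
noncomputable def ext0 (v : lattice.edgeSet → ℝ) (e : Sym2 (ℤ × ℤ)) : ℝ :=
  open Classical in if h : e ∈ lattice.edgeSet then v ⟨e, h⟩ else 0

theorem passage_congr {v v' : Sym2 (ℤ × ℤ) → ℝ} (h : ∀ e ∈ lattice.edgeSet, v e = v' e) (m : ℕ) :
    passage v m = passage v' m := by
  unfold passage
  congr 1
  funext p
  congr 1
  exact List.map_congr_left fun e he => h e (p.edges_subset_edgeSet he)

theorem meas_ext0 (m : ℕ) : Measurable fun v : lattice.edgeSet → ℝ => passage (ext0 v) m := by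
  unfold passage
  refine Measurable.iInf fun p => ?_
  have key : ∀ L : List (Sym2 (ℤ × ℤ)), Measurable fun v : lattice.edgeSet → ℝ =>
      (L.map (ext0 v)).sum := by
    intro L
    induction L with
    | nil => simp
    | cons e L ih =>
      simp only [List.map_cons, List.sum_cons]
      refine Measurable.add ?_ ih
      unfold ext0
      by_cases he : e ∈ lattice.edgeSet
      · simp only [dif_pos he]
        exact measurable_pi_apply _
      · simp only [dif_neg he]
        exact measurable_const
  exact key _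

variable {Ω : Type*} [MeasurableSpace Ω] {P : Measure Ω} {w : Sym2 (ℤ × ℤ) → Ω → ℝ}

/-- the expected passage time as an integral over the product space -/
noncomputable def mean (m : ℕ) : ℝ :=
  ∫ v, passage (ext0 v) m ∂(Measure.infinitePi
    (fun _ : lattice.edgeSet => (volume.restrict (Icc (0 : ℝ) 1) : Measure ℝ)))

instance : IsProbabilityMeasure (volume.restrict (Icc (0 : ℝ) 1) : Measure ℝ) :=
  ⟨by simp⟩

theorem IsUnif.mean_eq (h : IsUnif P w) [IsProbabilityMeasure P] (m : ℕ) :
    ∫ ω, passage (fun e => w e ω) m ∂P = mean m := by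
  have h1 : P.map (fun ω (e : lattice.edgeSet) => w e ω) = Measure.infinitePi
      (fun _ : lattice.edgeSet => (volume.restrict (Icc (0 : ℝ) 1) : Measure ℝ)) := by
    rw [iIndepFun.map_fun_eq_infinitePi_map (X := fun e : lattice.edgeSet => w e)
      (fun e => h.meas e.1 e.2) h.indep]
    congr 1
    funext e
    exact h.law e.1 e.2
  unfold mean
  have h2 : Measurable fun ω (e : lattice.edgeSet) => w e ω :=
    measurable_pi_lambda _ fun e => h.meas e.1 e.2
  rw [← h1, integral_map h2.aemeasurable (meas_ext0 m).aestronglyMeasurable]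
  congr 1
  funext ω
  refine passage_congr (fun e he => ?_) m
  simp [ext0, he]

theorem IsUnif.trans (h : IsUnif P w) (m : ℕ) :
    IsUnif P (fun e => w (Sym2.map (transHom m) e)) := by
  have hmap : ∀ e ∈ lattice.edgeSet, Sym2.map (transHom m) e ∈ lattice.edgeSet := by
    intro e
    induction e with
    | _ x y =>
      intro he
      exact (transHom m).map_adj he
  refine ⟨fun e he => h.meas _ (hmap e he), ?_, fun e he => h.law _ (hmap e he)⟩
  have hinj : Function.Injective
      (fun e : lattice.edgeSet => (⟨Sym2.map (transHom m) e, hmap e e.2⟩ : lattice.edgeSet)) := by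
    intro e f hef
    simp only [Subtype.mk.injEq] at hef
    exact Subtype.ext (Sym2.map.injective (trans_inj m) hef)
  exact h.indep.precomp hinj

theorem IsUnif.subadd (h : IsUnif P w) [IsProbabilityMeasure P] : Subadditive mean := by
  intro m n
  rw [← h.mean_eq, ← h.mean_eq, ← (h.trans m).mean_eq, ← integral_add (h.integrable m)
    ((h.trans m).integrable n)]
  refine integral_mono_ae (h.integrable _) ((h.integrable m).add ((h.trans m).integrable n)) ?_
  filter_upwards [h.ae_mem] with ω hω
  exact passage_add (fun e he => (hω e he).1) m n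

theorem IsUnif.mean_nonneg (h : IsUnif P w) [IsProbabilityMeasure P] (m : ℕ) : 0 ≤ mean m := by
  rw [← h.mean_eq]
  refine integral_nonneg_of_ae ?_
  filter_upwards [h.ae_mem] with ω hω
  exact passage_nonneg (fun e he => (hω e he).1) m

/-- the time constant exists, and the certificate bounds it -/
theorem IsUnif.main (h : IsUnif P w) [IsProbabilityMeasure P] {n M c : ℕ} {l : List ℕ}
    (hchk : chk n M c l = true) (hc : c < 2 ^ 27)
    (hM : 4 * (2 ^ 24 + 20 * M * (2 * n + 3)) + 3 < 2 ^ 28) (hM0 : 0 < M) :
    ∃ τ : ℝ, Tendsto (fun m : ℕ => (∫ ω, passage (fun e => w e ω) m ∂P) / m) atTop (𝓝 τ) ∧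
      τ ≤ ((c : ℝ) - 26 * M * (n + 1)) / (8 * M) := by
  have hM' : (0 : ℝ) < M := by exact_mod_cast hM0
  have hb : BddBelow (range fun m : ℕ => mean m / m) := by
    refine ⟨0, ?_⟩
    rintro _ ⟨m, rfl⟩
    exact div_nonneg (h.mean_nonneg m) (Nat.cast_nonneg _)
  have hlim := h.subadd.tendsto_lim hb
  simp only [h.mean_eq]
  refine ⟨_, hlim, ?_⟩
  have h1 : Tendsto (fun m : ℕ => (2 ^ 24 / (8 * M) : ℝ) / m +
      ((c : ℝ) - 26 * M * (n + 1)) / (8 * M)) atTop
      (𝓝 (0 + ((c : ℝ) - 26 * M * (n + 1)) / (8 * M))) :=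
    (tendsto_const_div_atTop_nhds_zero_nat _).add tendsto_const_nhds
  rw [zero_add] at h1
  refine le_of_tendsto_of_tendsto hlim h1 ?_
  filter_upwards [eventually_gt_atTop 0] with m hm
  have hm' : (0 : ℝ) < m := by exact_mod_cast hm
  have h2 := h.expect hchk hc hM hM0 m
  rw [h.mean_eq] at h2
  rw [div_le_iff₀ hm']
  refine h2.trans (le_of_eq ?_)
  field_simp

end H98.FPP
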