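import Pool.Agent.H98.FPP.Func

/-!
# MP_ae266a_pr : the automaton and its potential
-/

namespace H98.FPP

/-- states of the automaton (`n` digits; rows `0, …, n+1`) -/
inductive St where
  /-- `m` idle steps left -/
  | idle (m : ℕ) : St
  /-- column `x` complete; `u` value of row `0`, `a` difference of rows 1 and 0, `J` the others -/
  | s0 (x : ℕ) (u : ℤ) (a J : ℕ) : St
  /-- rows `≤ i` in column `x+1`, rows `> i` in column `x`; `u` value of row `i` -/
  | sh (x i : ℕ) (u : ℤ) (J dl : ℕ) : St
  /-- all rows in column `x+1`, next edge between rows `i` and `i+1`; `u` value of row `i+1` -/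
  | sv (x i : ℕ) (u : ℤ) (J a : ℕ) : St

/-- move of the centre after the edge `i` -/
def mv (x : ℕ) : ℕ → ℤ → ℕ → ℕ → St
  | 0, u, J, a => .s0 (x + 1) u a J
  | i + 1, u, J, a => .sv x i u (setd i J a) (J / 8 ^ i % 8)

/-- transition -/
def step (n : ℕ) : St → ℕ → St
  | .idle 0, _ => .s0 0 0 7 (8 ^ n - 1)
  | .idle (m + 1), _ => if m = 0 then .s0 0 0 7 (8 ^ n - 1) else .idle m
  | .s0 x u a J, e => .sh x 0 (u + (2 * e + 1)) J (a + 3 - e)
  | .sh x i u J dl, e =>
    if i < n then
      if 10 < dl + e then
        .sh x (i + 1) (u + 7) (setd i J 7) (J / 8 ^ i % 8 + (3 - e + (dl + e - 10)))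
      else if dl + e < 3 then
        .sh x (i + 1) (u + 2 * (dl + e) - 13) (setd i (itx (bidx i) (3 - (dl + e)) J) 0)
          (J / 8 ^ i % 8 + (3 - e))
      else .sh x (i + 1) (u + 2 * (dl + e) - 13) (setd i J (dl + e - 3))
          (J / 8 ^ i % 8 + (3 - e))
    else
      if 10 < dl + e then .sv x n (u + 7) J 7
      else if dl + e < 3 then
        .sv x n (u + 2 * (dl + e) - 13) (itx (bidx n) (3 - (dl + e)) J) 0
      else .sv x n (u + 2 * (dl + e) - 13) J (dl + e - 3)
  | .sv x i u J a, e =>
    if e + 4 < a then mv x i (u - (2 * a - 7)) (itx (cidx n (n - i)) (a - (e + 4)) J) (e + 4)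
    else if a < 3 - e then
      mv x i (u + (2 * e + 1)) (itx (bidx i) (3 - e - a) J) (3 - e)
    else mv x i (u - (2 * a - 7)) J a

/-- the potential -/
def Phi (n M : ℕ) (cc : ℤ) (H : ℕ → ℕ → ℕ) : St → ℤ
  | .idle _ => H 7 (8 ^ n - 1)
  | .s0 x u a J => M * u + H a J - cc * x
  | .sh x i u J dl => M * u + AF n M H (n - i) dl J - 13 * M * (n + 1) -
      13 * M * ((n - i : ℕ) + 1) - cc * (x + 1)
  | .sv x i u J a => M * u + Fb n M H i a J - 13 * M * (i + 1) - cc * (x + 1)

theorem Phi_mv (n M : ℕ) (cc : ℤ) (H : ℕ → ℕ → ℕ) (x i : ℕ) (u : ℤ) (J a : ℕ) :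
    Phi n M cc H (mv x i u J a) = M * u + Fa n M H i a J - 13 * M * i - cc * (x + 1) := by
  cases i with
  | zero => simp [mv, Phi, Fa]
  | succ i =>
    simp only [mv, Phi, Fa, TF, Fb]
    push_cast
    ring

/-- digit `i` is not changed by `bidx i` -/
theorem digit_bidx (i J : ℕ) (j : ℕ) (hj : i ≤ j) : bidx i J / 8 ^ j = J / 8 ^ j := by
  induction i with
  | zero => rfl
  | succ i ih =>
    rw [bidx]
    split_ifs with h
    · have hd : J = 8 ^ j * (J / 8 ^ j) + J % 8 ^ j := (Nat.div_add_mod _ _).symm
      have h1 : J % 8 ^ j / 8 ^ i % 8 = J / 8 ^ i % 8 := by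
        have e : 8 ^ j = 8 ^ i * 8 ^ (j - i) := by rw [← pow_add]; congr 1; omega
        rw [e, Nat.mod_mul_right_div_self, Nat.mod_mod_of_dvd]
        have : j - i = (j - i - 1) + 1 := by omega
        rw [this, pow_succ]
        exact Dvd.intro_left _ rfl
      have h2 : 8 ^ i ≤ J % 8 ^ j := by
        by_contra hc
        rw [Nat.div_eq_of_lt (by omega)] at h1
        simp at h1
        omega
      have h3 : J % 8 ^ j < 8 ^ j := Nat.mod_lt _ (pow8_pos j)
      have h4 : J - 8 ^ i = (J % 8 ^ j - 8 ^ i) + 8 ^ j * (J / 8 ^ j) := by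
        generalize 8 ^ j * (J / 8 ^ j) = P at hd ⊢
        omega
      rw [h4, Nat.add_mul_div_left _ _ (pow8_pos j),
        Nat.div_eq_of_lt (lt_of_le_of_lt (Nat.sub_le _ _) h3), Nat.zero_add]
    · exact ih (by omega)

theorem digit_itx_bidx (i m J j : ℕ) (hj : i ≤ j) : itx (bidx i) m J / 8 ^ j = J / 8 ^ j := by
  induction m generalizing J with
  | zero => rfl
  | succ m ih => rw [itx, ih, digit_bidx i J j hj]

/-- the potential is a supermartingale -/
theorem Phi_step {n M c : ℕ} {H : ℕ → ℕ → ℕ}
    (hH : ∀ a < 8, ∀ J < 8 ^ n, FF M (AF n M H n) a J ≤ H a J + c) (σ : St)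
    (h0 : ∀ x u a J, σ = .s0 x u a J → a < 8 ∧ J < 8 ^ n)
    (h1 : ∀ x i u J dl, σ = .sh x i u J dl → i ≤ n)
    (h2 : ∀ x i u J a, σ = .sv x i u J a → i ≤ n ∧ a < 8) :
    Phi n M (c - 26 * M * (n + 1)) H (step n σ 0) + Phi n M (c - 26 * M * (n + 1)) H (step n σ 1) +
      Phi n M (c - 26 * M * (n + 1)) H (step n σ 2) + Phi n M (c - 26 * M * (n + 1)) H (step n σ 3)
      ≤ 4 * Phi n M (c - 26 * M * (n + 1)) H σ := by
  cases σ with
  | idle m =>
    rcases m with _ | m
    · simp only [step, Phi]; push_cast; linarith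
    · simp only [step]
      split_ifs
      · simp only [Phi]; push_cast; linarith
      · simp only [Phi]; linarith
  | s0 x u a J =>
    obtain ⟨ha, hJ⟩ := h0 x u a J rfl
    have h := hH a ha J hJ
    unfold FF at h
    have h' : AF n M H n (a + 3) J + M + (AF n M H n (a + 2) J + 3 * M) +
        (AF n M H n (a + 1) J + 5 * M) + (AF n M H n a J + 7 * M) ≤ 4 * (H a J + c) := by omega
    simp only [step, Phi, Nat.sub_zero]
    have e1 : a + 3 - 0 = a + 3 := rfl
    have e2 : a + 3 - 1 = a + 2 := by omega
    have e3 : a + 3 - 2 = a + 1 := by omega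
    have e4 : a + 3 - 3 = a := by omega
    rw [e2, e3, e4]
    have h'' : (AF n M H n (a + 3) J : ℤ) + M + (AF n M H n (a + 2) J + 3 * M) +
        (AF n M H n (a + 1) J + 5 * M) + (AF n M H n a J + 7 * M) ≤ 4 * (H a J + c) := by
      exact_mod_cast h'
    push_cast
    linarith
  | sh x i u J dl =>
    have hi := h1 x i u J dl rfl
    -- value of the four successors
    have key : ∀ e < 4, Phi n M (c - 26 * M * (n + 1)) H (step n (.sh x i u J dl) e) =
        M * u + HT i M (if i < n then QF i (AF n M H (n - i - 1)) else fun _ => Fb n M H n) dl e J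
          - 13 * M - 13 * M * (n + 1) - 13 * M * ((n - i : ℕ) : ℤ) -
          ((c : ℤ) - 26 * M * (n + 1)) * (x + 1) := by
      intro e he
      by_cases hin : i < n
      · have e1 : n - (i + 1) = n - i - 1 := by omega
        have e2 : ((n - i : ℕ) : ℤ) = ((n - i - 1 : ℕ) : ℤ) + 1 := by omega
        simp only [step, HT, if_pos hin]
        split_ifs with h1 h2
        · simp only [Phi, QF, TF, e1, e2]
          push_cast
          ring
        · simp only [Phi, QF, TF, digit_itx_bidx i _ J i le_rfl, e1, e2]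
          push_cast
          ring
        · simp only [Phi, QF, TF, e1, e2]
          push_cast
          ring
      · have hin' : i = n := by omega
        subst hin'
        simp only [step, HT, if_neg hin, Nat.sub_self]
        split_ifs with h1 h2
        · simp only [Phi]
          push_cast
          ring
        · simp only [Phi]
          push_cast
          ring
        · simp only [Phi]
          push_cast
          ring
    rw [key 0 (by norm_num), key 1 (by norm_num), key 2 (by norm_num), key 3 (by norm_num)]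
    have hAF : AF n M H (n - i) = HF i M
        (if i < n then QF i (AF n M H (n - i - 1)) else fun _ => Fb n M H n) := by
      by_cases hin : i < n
      · rw [if_pos hin]
        have e1 : n - i = (n - i - 1) + 1 := by omega
        have e2 : n - (n - i - 1) - 1 = i := by omega
        conv_lhs => rw [e1, AF, e2]
      · have hin' : i = n := by omega
        subst hin'
        rw [if_neg hin, Nat.sub_self, AF]
    generalize (if i < n then QF i (AF n M H (n - i - 1)) else fun _ => Fb n M H n) = Q at hAF ⊢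
    have h4 : HT i M Q dl 0 J + HT i M Q dl 1 J + HT i M Q dl 2 J + HT i M Q dl 3 J ≤
        4 * AF n M H (n - i) dl J := by
      rw [hAF]
      unfold HF
      omega
    zify at h4
    simp only [Phi]
    linarith
  | sv x i u J a =>
    obtain ⟨hi, ha⟩ := h2 x i u J a rfl
    have key : ∀ e < 4, Phi n M (c - 26 * M * (n + 1)) H (step n (.sv x i u J a) e) =
        M * u - M * (2 * a - 7) + VT n i M (Fa n M H i) a e J - 6 * M - 13 * M * i -
          ((c : ℤ) - 26 * M * (n + 1)) * (x + 1) := by
      intro e he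
      simp only [step, VT]
      split_ifs with h1 h2
      · rw [Phi_mv]
        push_cast
        ring
      · rw [Phi_mv]
        have e1 : ((3 - (3 - e - a) : ℕ) : ℤ) = e + a := by omega
        have e2 : ((2 * M * (3 - (3 - e - a)) : ℕ) : ℤ) = 2 * M * (e + a) := by
          rw [Nat.cast_mul, e1]; push_cast; ring
        rw [Nat.cast_add, e2]
        ring
      · rw [Phi_mv]
        push_cast
        ring
    rw [key 0 (by norm_num), key 1 (by norm_num), key 2 (by norm_num), key 3 (by norm_num)]
    have h4 : VT n i M (Fa n M H i) a 0 J + VT n i M (Fa n M H i) a 1 J +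
        VT n i M (Fa n M H i) a 2 J + VT n i M (Fa n M H i) a 3 J + 4 * (2 * M * (7 - a)) ≤
        4 * Fb n M H i a J := by
      unfold Fb VF
      omega
    have e7 : ((2 * M * (7 - a) : ℕ) : ℤ) = 2 * M * (7 - a) := by
      have : ((7 - a : ℕ) : ℤ) = 7 - a := by omega
      rw [Nat.cast_mul, this]; push_cast; ring
    have h5 : (VT n i M (Fa n M H i) a 0 J : ℤ) + VT n i M (Fa n M H i) a 1 J +
        VT n i M (Fa n M H i) a 2 J + VT n i M (Fa n M H i) a 3 J + 4 * (2 * M * (7 - a)) ≤
        4 * Fb n M H i a J := by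
      rw [← e7]
      exact_mod_cast h4
    simp only [Phi]
    linarith

end H98.FPP
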