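import Mathlib

/-!
# MP_ae266a_pr : definitions
-/

namespace H98.FPP

/-- the nearest-neighbour graph on the vertex set `ℤ²` -/
def lattice : SimpleGraph (ℤ × ℤ) where
  Adj p q := |p.1 - q.1| + |p.2 - q.2| = 1
  symm := ⟨fun p q h => by rw [abs_sub_comm q.1, abs_sub_comm q.2]; exact h⟩
  loopless := ⟨fun p h => by simp at h⟩

/-- the passage time from `(0,0)` to `(n,0)` for the edge weights `w` : the infimum, over all
lattice paths `p` from `(0,0)` to `(n,0)`, of the sum of the weights of the edges of `p` -/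
noncomputable def passage (w : Sym2 (ℤ × ℤ) → ℝ) (n : ℕ) : ℝ :=
  ⨅ p : lattice.Walk (0, 0) ((n : ℤ), 0), (p.edges.map w).sum

end H98.FPP
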