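import Pool.Agent.H98.FPP.Pack

/-!
# MP_ae266a_pr : the column operator as an operator on functions
-/

namespace H98.FPP

/-- the list `t` of `m` tables with `n` digits represents `F`, all values being `≤ B` -/
def Rep (n m : ℕ) (t : List ℕ) (F : ℕ → ℕ → ℕ) (B : ℕ) : Prop :=
  ∀ a < m, ∀ J < 8 ^ n, get (ent t a) J = F a J ∧ F a J ≤ B

def VT (n i M : ℕ) (F : ℕ → ℕ → ℕ) (a e J : ℕ) : ℕ :=
  if e + 4 < a then F (e + 4) (itx (cidx n (n - i)) (a - (e + 4)) J) + 6 * M
  else if a < 3 - e then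
    F (3 - e) (itx (bidx i) (3 - e - a) J) + 2 * M * (3 - (3 - e - a))
  else F a J + 6 * M

/-- vertical edge -/
def VF (n i M : ℕ) (F : ℕ → ℕ → ℕ) (a J : ℕ) : ℕ :=
  (VT n i M F a 0 J + VT n i M F a 1 J + VT n i M F a 2 J + VT n i M F a 3 J + 3) / 4 +
    2 * M * (7 - a)

/-- transposition -/
def TF (i : ℕ) (F : ℕ → ℕ → ℕ) (b J : ℕ) : ℕ := F (J / 8 ^ i % 8) (setd i J b)

def HT (i M : ℕ) (Q : ℕ → ℕ → ℕ → ℕ) (dl e J : ℕ) : ℕ :=
  if 10 < dl + e then Q (3 - e + (dl + e - 10)) 7 J + 20 * M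
  else if dl + e < 3 then Q (3 - e) 0 (itx (bidx i) (3 - (dl + e)) J) + 2 * M * (dl + e)
  else Q (3 - e) (dl + e - 3) J + 2 * M * (dl + e)

/-- horizontal edge -/
def HF (i M : ℕ) (Q : ℕ → ℕ → ℕ → ℕ) (dl J : ℕ) : ℕ :=
  (HT i M Q dl 0 J + HT i M Q dl 1 J + HT i M Q dl 2 J + HT i M Q dl 3 J + 3) / 4

/-- last horizontal edge -/
def FF (M : ℕ) (A : ℕ → ℕ → ℕ) (a J : ℕ) : ℕ :=
  (A (a + 3) J + M + (A (a + 2) J + 3 * M) + (A (a + 1) J + 5 * M) + (A a J + 7 * M) + 3) / 4

theorem not_of_blt {a b : ℕ} (h : Nat.blt a b = false) : ¬ a < b := fun hlt => by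
  rw [(Iff.of_eq Nat.blt_eq).2 hlt] at h
  exact absurd h (by simp)

theorem bidx_lt (n i J : ℕ) (hJ : J < 8 ^ n) : bidx i J < 8 ^ n := (bidx_le i J).trans_lt hJ

theorem rep_vterm {n i M B : ℕ} {t : List ℕ} {F : ℕ → ℕ → ℕ} (h : Rep n 8 t F B) (hi : i ≤ n)
    (hB : B + 6 * M < 2 ^ 28) {a e : ℕ} (ha : a < 8) (he : e < 4) {J : ℕ} (hJ : J < 8 ^ n) :
    get (vterm n i M t a e) J = VT n i M F a e J ∧ VT n i M F a e J ≤ B + 6 * M := by
  have hc : ∀ J < 8 ^ n, cidx n (n - i) J < 8 ^ n := fun J hJ => cidx_lt n _ J (by omega) hJ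
  have hb : ∀ J < 8 ^ n, bidx i J < 8 ^ n := fun J hJ => bidx_lt n i J hJ
  unfold vterm VT
  cases h1 : Nat.blt (e + 4) a
  · have h1' : ¬ (e + 4 < a) := not_of_blt h1
    rw [cond_false, if_neg h1']
    cases h2 : Nat.blt a (3 - e)
    · have h2' : ¬ (a < 3 - e) := not_of_blt h2
      rw [cond_false, if_neg h2']
      have hA := h a ha
      rw [get_add _ _ _ fun j hj => by
        rw [(hA j (by omega)).1, get_konst _ n j (by omega) (by omega)]
        have := (hA j (by omega)).2
        omega, get_konst _ n J (by omega) hJ, (hA J hJ).1]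
      exact ⟨rfl, by have := (hA J hJ).2; omega⟩
    · have h2' : a < 3 - e := by simpa using h2
      rw [cond_true, if_pos h2']
      have hA := h (3 - e) (by omega)
      have hk : 2 * M * (3 - (3 - e - a)) ≤ 6 * M := by
        calc 2 * M * (3 - (3 - e - a)) ≤ 2 * M * 3 := Nat.mul_le_mul_left _ (by omega)
          _ = 6 * M := by ring
      have hg : ∀ j < 8 ^ n, get (iter (bor n i) (3 - e - a) (ent t (3 - e))) j =
          F (3 - e) (itx (bidx i) (3 - e - a) j) ∧
          F (3 - e) (itx (bidx i) (3 - e - a) j) ≤ B := fun j hj => by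
        rw [get_iter n _ _ hb (fun T J hJ => get_bor n i T J hi hJ) _ _ _ hj]
        exact hA _ (itx_lt n _ hb _ _ hj)
      rw [get_add _ _ _ fun j hj => by
        rw [(hg j (by omega)).1, get_konst _ n j (by omega) (by omega)]
        have := (hg j (by omega)).2
        omega, get_konst _ n J (by omega) hJ, (hg J hJ).1]
      exact ⟨rfl, by have := (hg J hJ).2; omega⟩
  · have h1' : e + 4 < a := by simpa using h1
    rw [cond_true, if_pos h1']
    have hA := h (e + 4) (by omega)
    have hg : ∀ j < 8 ^ n, get (iter (car n (n - i)) (a - (e + 4)) (ent t (e + 4))) j =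
        F (e + 4) (itx (cidx n (n - i)) (a - (e + 4)) j) ∧
        F (e + 4) (itx (cidx n (n - i)) (a - (e + 4)) j) ≤ B := fun j hj => by
      rw [get_iter n _ _ hc (fun T J hJ => get_car n (n - i) T J (by omega) hJ) _ _ _ hj]
      exact hA _ (itx_lt n _ hc _ _ hj)
    rw [get_add _ _ _ fun j hj => by
      rw [(hg j (by omega)).1, get_konst _ n j (by omega) (by omega)]
      have := (hg j (by omega)).2
      omega, get_konst _ n J (by omega) hJ, (hg J hJ).1]
    exact ⟨rfl, by have := (hg J hJ).2; omega⟩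

/-- sum of four tables -/
theorem get_add4 {n b : ℕ} (A0 A1 A2 A3 : ℕ) (hb : 4 * b < 2 ^ 28)
    (h0 : ∀ j < 8 ^ n, get A0 j ≤ b) (h1 : ∀ j < 8 ^ n, get A1 j ≤ b)
    (h2 : ∀ j < 8 ^ n, get A2 j ≤ b) (h3 : ∀ j < 8 ^ n, get A3 j ≤ b) {J : ℕ} (hJ : J < 8 ^ n) :
    get (A0 + A1 + A2 + A3) J = get A0 J + get A1 J + get A2 J + get A3 J := by
  have e1 : ∀ j < 8 ^ n, get (A0 + A1) j = get A0 j + get A1 j := fun j hj =>
    get_add _ _ _ fun i hi => by
      have := h0 i (by omega); have := h1 i (by omega); omega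
  have e2 : ∀ j < 8 ^ n, get (A0 + A1 + A2) j = get A0 j + get A1 j + get A2 j := fun j hj => by
    rw [get_add _ _ _ fun i hi => by
      rw [e1 i (by omega)]
      have := h0 i (by omega); have := h1 i (by omega); have := h2 i (by omega); omega, e1 j hj]
  rw [get_add _ _ _ fun i hi => by
    rw [e2 i (by omega)]
    have := h0 i (by omega); have := h1 i (by omega); have := h2 i (by omega)
    have := h3 i (by omega); omega, e2 J hJ]

theorem rep_vent {n i M B : ℕ} {t : List ℕ} {F : ℕ → ℕ → ℕ} (h : Rep n 8 t F B) (hi : i ≤ n)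
    (hB : 4 * (B + 20 * M) + 3 < 2 ^ 28) {a : ℕ} (ha : a < 8) {J : ℕ} (hJ : J < 8 ^ n) :
    get (vent n i M t a) J = VF n i M F a J ∧ VF n i M F a J ≤ B + 20 * M := by
  have hT : ∀ e < 4, ∀ j < 8 ^ n, get (vterm n i M t a e) j = VT n i M F a e j ∧
      VT n i M F a e j ≤ B + 6 * M := fun e he j hj => rep_vterm h hi (by omega) ha he hj
  have hsum : ∀ j < 8 ^ n, get (vterm n i M t a 0 + vterm n i M t a 1 + vterm n i M t a 2 +
      vterm n i M t a 3) j = VT n i M F a 0 j + VT n i M F a 1 j + VT n i M F a 2 j +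
      VT n i M F a 3 j := fun j hj => by
    rw [get_add4 (n := n) (b := B + 6 * M) _ _ _ _ (by omega)
      (fun j hj => by rw [(hT 0 (by norm_num) j hj).1]; exact (hT 0 (by norm_num) j hj).2)
      (fun j hj => by rw [(hT 1 (by norm_num) j hj).1]; exact (hT 1 (by norm_num) j hj).2)
      (fun j hj => by rw [(hT 2 (by norm_num) j hj).1]; exact (hT 2 (by norm_num) j hj).2)
      (fun j hj => by rw [(hT 3 (by norm_num) j hj).1]; exact (hT 3 (by norm_num) j hj).2) hj,
      (hT 0 (by norm_num) j hj).1, (hT 1 (by norm_num) j hj).1, (hT 2 (by norm_num) j hj).1,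
      (hT 3 (by norm_num) j hj).1]
  have hk : 2 * M * (7 - a) ≤ 14 * M := by
    calc 2 * M * (7 - a) ≤ 2 * M * 7 := Nat.mul_le_mul_left _ (by omega)
      _ = 14 * M := by ring
  have hdiv : ∀ j < 8 ^ n, get (cdiv4 n (vterm n i M t a 0 + vterm n i M t a 1 +
      vterm n i M t a 2 + vterm n i M t a 3)) j = (VT n i M F a 0 j + VT n i M F a 1 j +
      VT n i M F a 2 j + VT n i M F a 3 j + 3) / 4 := fun j hj => by
    rw [get_cdiv4 n _ j hj fun k hk => by
      rw [hsum k hk]
      have := (hT 0 (by norm_num) k hk).2; have := (hT 1 (by norm_num) k hk).2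
      have := (hT 2 (by norm_num) k hk).2; have := (hT 3 (by norm_num) k hk).2
      omega, hsum j hj]
  have hle : ∀ j < 8 ^ n, (VT n i M F a 0 j + VT n i M F a 1 j +
      VT n i M F a 2 j + VT n i M F a 3 j + 3) / 4 ≤ B + 6 * M := fun k hk => by
    have := (hT 0 (by norm_num) k hk).2; have := (hT 1 (by norm_num) k hk).2
    have := (hT 2 (by norm_num) k hk).2; have := (hT 3 (by norm_num) k hk).2
    omega
  unfold vent VF
  rw [get_add _ _ _ fun j hj => by
    rw [hdiv j (by omega), get_konst _ n j (by omega) (by omega)]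
    have := hle j (by omega)
    omega, hdiv J hJ, get_konst _ n J (by omega) hJ]
  exact ⟨rfl, by have := hle J hJ; omega⟩

theorem rep_vstep {n i M B : ℕ} {t : List ℕ} {F : ℕ → ℕ → ℕ} (h : Rep n 8 t F B) (hi : i ≤ n)
    (hB : 4 * (B + 20 * M) + 3 < 2 ^ 28) :
    Rep n 8 (vstep n i M t) (VF n i M F) (B + 20 * M) := by
  intro a ha J hJ
  have e : ent (vstep n i M t) a = vent n i M t a := by interval_cases a <;> rfl
  rw [e]
  exact rep_vent h hi hB ha hJ

theorem rep_trn {n i B : ℕ} {t : List ℕ} {F : ℕ → ℕ → ℕ} (h : Rep n 8 t F B) (hi : i < n) :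
    Rep n 8 (trn n i t) (TF i F) B := by
  intro b hb J hJ
  rw [get_trn n i b t J hi hb hJ]
  exact h _ (Nat.mod_lt _ (by norm_num)) _ (setd_lt n i J b hi hb hJ)

/-- tables of the vertical phase -/
def Fa (n M : ℕ) (H : ℕ → ℕ → ℕ) : ℕ → ℕ → ℕ → ℕ
  | 0 => H
  | i + 1 => TF i (VF n i M (Fa n M H i))

def Fb (n M : ℕ) (H : ℕ → ℕ → ℕ) (i : ℕ) : ℕ → ℕ → ℕ := VF n i M (Fa n M H i)

theorem rep_vphase {n M B : ℕ} {H : ℕ → ℕ → ℕ} (c i : ℕ) {t : List ℕ}
    (h : Rep n 8 t (Fa n M H i) (B + 20 * M * i)) (hi : i + c ≤ n)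
    (hB : 4 * (B + 20 * M * (n + 1)) + 3 < 2 ^ 28) :
    Rep n 8 (vphase n M c i t) (Fb n M H (i + c)) (B + 20 * M * (i + c + 1)) := by
  induction c generalizing i t with
  | zero =>
    rw [vphase]
    have hm : 20 * M * (i + 1) ≤ 20 * M * (n + 1) := Nat.mul_le_mul_left _ (by omega)
    have e : B + 20 * M * i + 20 * M = B + 20 * M * (i + 1) := by ring
    have := rep_vstep (n := n) (i := i) (M := M) h (by omega) (by rw [e]; omega)
    rw [e] at this
    exact this
  | succ c ih =>
    rw [vphase]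
    have hm : 20 * M * (i + 1) ≤ 20 * M * (n + 1) := Nat.mul_le_mul_left _ (by omega)
    have e : B + 20 * M * i + 20 * M = B + 20 * M * (i + 1) := by ring
    have h1 := rep_vstep (n := n) (i := i) (M := M) h (by omega) (by rw [e]; omega)
    rw [e] at h1
    have h2 := rep_trn h1 (i := i) (by omega)
    have h3 := ih (i + 1) h2 (by omega)
    have e2 : i + 1 + c = i + (c + 1) := by ring
    rw [e2] at h3
    exact h3

/-- representation of the windows -/
def RepQ (n : ℕ) (Qs : List (List ℕ)) (Q : ℕ → ℕ → ℕ → ℕ) (B : ℕ) : Prop :=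
  ∀ j < 4, Rep n 8 (Qs.getD j []) (Q j) B

theorem rep_hterm {n i M B : ℕ} {Qs : List (List ℕ)} {Q : ℕ → ℕ → ℕ → ℕ} (h : RepQ n Qs Q B)
    (hi : i ≤ n) (hB : B + 20 * M < 2 ^ 28) {dl e : ℕ} (hd : dl < 11) (he : e < 4) {J : ℕ}
    (hJ : J < 8 ^ n) :
    get (hterm n i M Qs dl e) J = HT i M Q dl e J ∧ HT i M Q dl e J ≤ B + 20 * M := by
  have hb : ∀ J < 8 ^ n, bidx i J < 8 ^ n := fun J hJ => bidx_lt n i J hJ
  unfold hterm HT
  cases h1 : Nat.blt 10 (dl + e)
  · have h1' : ¬ (10 < dl + e) := not_of_blt h1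
    rw [cond_false, if_neg h1']
    have hk : 2 * M * (dl + e) ≤ 20 * M := by
      calc 2 * M * (dl + e) ≤ 2 * M * 10 := Nat.mul_le_mul_left _ (by omega)
        _ = 20 * M := by ring
    cases h2 : Nat.blt (dl + e) 3
    · have h2' : ¬ (dl + e < 3) := not_of_blt h2
      rw [cond_false, if_neg h2']
      have hA := h (3 - e) (by omega) (dl + e - 3) (by omega)
      rw [get_add _ _ _ fun j hj => by
        rw [(hA j (by omega)).1, get_konst _ n j (by omega) (by omega)]
        have := (hA j (by omega)).2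
        omega, get_konst _ n J (by omega) hJ, (hA J hJ).1]
      exact ⟨rfl, by have := (hA J hJ).2; omega⟩
    · have h2' : dl + e < 3 := by simpa using h2
      rw [cond_true, if_pos h2']
      have hA := h (3 - e) (by omega) 0 (by norm_num)
      have hg : ∀ j < 8 ^ n, get (iter (bor n i) (3 - (dl + e)) (ent (Qs.getD (3 - e) []) 0)) j =
          Q (3 - e) 0 (itx (bidx i) (3 - (dl + e)) j) ∧
          Q (3 - e) 0 (itx (bidx i) (3 - (dl + e)) j) ≤ B := fun j hj => by
        rw [get_iter n _ _ hb (fun T J hJ => get_bor n i T J hi hJ) _ _ _ hj]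
        exact hA _ (itx_lt n _ hb _ _ hj)
      rw [get_add _ _ _ fun j hj => by
        rw [(hg j (by omega)).1, get_konst _ n j (by omega) (by omega)]
        have := (hg j (by omega)).2
        omega, get_konst _ n J (by omega) hJ, (hg J hJ).1]
      exact ⟨rfl, by have := (hg J hJ).2; omega⟩
  · have h1' : 10 < dl + e := by simpa using h1
    rw [cond_true, if_pos h1']
    have hA := h (3 - e + (dl + e - 10)) (by omega) 7 (by norm_num)
    rw [get_add _ _ _ fun j hj => by
      rw [(hA j (by omega)).1, get_konst _ n j (by omega) (by omega)]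
      have := (hA j (by omega)).2
      omega, get_konst _ n J (by omega) hJ, (hA J hJ).1]
    exact ⟨rfl, by have := (hA J hJ).2; omega⟩

theorem rep_hent {n i M B : ℕ} {Qs : List (List ℕ)} {Q : ℕ → ℕ → ℕ → ℕ} (h : RepQ n Qs Q B)
    (hi : i ≤ n) (hB : 4 * (B + 20 * M) + 3 < 2 ^ 28) {dl : ℕ} (hd : dl < 11) {J : ℕ}
    (hJ : J < 8 ^ n) :
    get (hent n i M Qs dl) J = HF i M Q dl J ∧ HF i M Q dl J ≤ B + 20 * M := by
  have hT : ∀ e < 4, ∀ j < 8 ^ n, get (hterm n i M Qs dl e) j = HT i M Q dl e j ∧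
      HT i M Q dl e j ≤ B + 20 * M := fun e he j hj => rep_hterm h hi (by omega) hd he hj
  have hsum : ∀ j < 8 ^ n, get (hterm n i M Qs dl 0 + hterm n i M Qs dl 1 + hterm n i M Qs dl 2 +
      hterm n i M Qs dl 3) j = HT i M Q dl 0 j + HT i M Q dl 1 j + HT i M Q dl 2 j +
      HT i M Q dl 3 j := fun j hj => by
    rw [get_add4 (n := n) (b := B + 20 * M) _ _ _ _ (by omega)
      (fun j hj => by rw [(hT 0 (by norm_num) j hj).1]; exact (hT 0 (by norm_num) j hj).2)
      (fun j hj => by rw [(hT 1 (by norm_num) j hj).1]; exact (hT 1 (by norm_num) j hj).2)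
      (fun j hj => by rw [(hT 2 (by norm_num) j hj).1]; exact (hT 2 (by norm_num) j hj).2)
      (fun j hj => by rw [(hT 3 (by norm_num) j hj).1]; exact (hT 3 (by norm_num) j hj).2) hj,
      (hT 0 (by norm_num) j hj).1, (hT 1 (by norm_num) j hj).1, (hT 2 (by norm_num) j hj).1,
      (hT 3 (by norm_num) j hj).1]
  unfold hent HF
  rw [get_cdiv4 n _ J hJ fun k hk => by
    rw [hsum k hk]
    have := (hT 0 (by norm_num) k hk).2; have := (hT 1 (by norm_num) k hk).2
    have := (hT 2 (by norm_num) k hk).2; have := (hT 3 (by norm_num) k hk).2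
    omega, hsum J hJ]
  refine ⟨rfl, ?_⟩
  have := (hT 0 (by norm_num) J hJ).2; have := (hT 1 (by norm_num) J hJ).2
  have := (hT 2 (by norm_num) J hJ).2; have := (hT 3 (by norm_num) J hJ).2
  omega

theorem rep_hstep {n i M B : ℕ} {Qs : List (List ℕ)} {Q : ℕ → ℕ → ℕ → ℕ} (h : RepQ n Qs Q B)
    (hi : i ≤ n) (hB : 4 * (B + 20 * M) + 3 < 2 ^ 28) :
    Rep n 11 (hstep n i M Qs) (HF i M Q) (B + 20 * M) := by
  intro a ha J hJ
  have e : ent (hstep n i M Qs) a = hent n i M Qs a := by interval_cases a <;> rfl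
  rw [e]
  exact rep_hent h hi hB ha hJ

/-- windows -/
def QF (i : ℕ) (A : ℕ → ℕ → ℕ) (j : ℕ) : ℕ → ℕ → ℕ := TF i (fun e => A (e + j))

theorem ent_take (A : List ℕ) (j a : ℕ) (ha : a < 8) :
    ent ((A.drop j).take 8) a = ent A (a + j) := by
  unfold ent
  rw [List.getD_eq_getElem?_getD, List.getD_eq_getElem?_getD, List.getElem?_take, if_pos ha,
    List.getElem?_drop, add_comm]

theorem rep_win {n i B : ℕ} {A : List ℕ} {F : ℕ → ℕ → ℕ} (h : Rep n 11 A F B) (hi : i < n) :
    RepQ n (win n i A) (QF i F) B := by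
  intro j hj
  have h1 : Rep n 8 ((A.drop j).take 8) (fun e => F (e + j)) B := fun a ha J hJ => by
    rw [ent_take A j a ha]
    exact h (a + j) (by omega) J hJ
  have h2 := rep_trn h1 hi
  have e : (win n i A).getD j [] = trn n i ((A.drop j).take 8) := by
    interval_cases j <;> simp [win]
  rw [e]
  exact h2

/-- tables of the horizontal phase; `AF d` belongs to the row `n - d` -/
def AF (n M : ℕ) (H : ℕ → ℕ → ℕ) : ℕ → ℕ → ℕ → ℕ
  | 0 => HF n M (fun _ => Fb n M H n)
  | d + 1 => HF (n - d - 1) M (QF (n - d - 1) (AF n M H d))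

theorem rep_hphase {n M B : ℕ} {H : ℕ → ℕ → ℕ} (i : ℕ) {A : List ℕ} (hi : i ≤ n)
    (h : Rep n 11 A (AF n M H (n - i)) (B + 20 * M * (n - i)))
    (hB : 4 * (B + 20 * M * (n + 1)) + 3 < 2 ^ 28) :
    Rep n 11 (hphase n M i A) (AF n M H n) (B + 20 * M * n) := by
  induction i generalizing A with
  | zero =>
    rw [hphase]
    simpa using h
  | succ i ih =>
    rw [hphase]
    apply ih (by omega)
    have hm : 20 * M * (n - i) ≤ 20 * M * (n + 1) := Nat.mul_le_mul_left _ (by omega)
    have e1 : n - i = n - (i + 1) + 1 := by omega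
    have e2 : B + 20 * M * (n - (i + 1)) + 20 * M = B + 20 * M * (n - i) := by
      rw [e1]; ring
    have h1 := rep_hstep (M := M) (rep_win h (i := i) (by omega)) (i := i) (by omega)
      (by rw [e2]; omega)
    rw [e2] at h1
    have e3 : AF n M H (n - i) = HF i M (QF i (AF n M H (n - (i + 1)))) := by
      rw [e1, AF]
      have : n - (n - (i + 1)) - 1 = i := by omega
      rw [this]
    rw [e3]
    exact h1

theorem rep_fent {n M B : ℕ} {A : List ℕ} {F : ℕ → ℕ → ℕ} (h : Rep n 11 A F B)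
    (hB : 4 * (B + 20 * M) + 3 < 2 ^ 28) {a : ℕ} (ha : a < 8) {J : ℕ} (hJ : J < 8 ^ n) :
    get (fent n M A a) J = FF M F a J := by
  have hT : ∀ e < 4, ∀ k, k ≤ 7 * M → ∀ j < 8 ^ n, get (ent A (a + e) + konst k n) j =
      F (a + e) j + k ∧ F (a + e) j + k ≤ B + 7 * M := fun e he k hk j hj => by
    have hA := h (a + e) (by omega)
    rw [get_add _ _ _ fun i hi => by
      rw [(hA i (by omega)).1, get_konst _ n i (by omega) (by omega)]
      have := (hA i (by omega)).2
      omega, get_konst _ n j (by omega) hj, (hA j hj).1]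
    exact ⟨rfl, by have := (hA j hj).2; omega⟩
  have h0 := hT 3 (by norm_num) M (by omega)
  have h1 := hT 2 (by norm_num) (3 * M) (by omega)
  have h2 := hT 1 (by norm_num) (5 * M) (by omega)
  have h3 := hT 0 (by norm_num) (7 * M) (by omega)
  rw [Nat.add_zero] at h3
  have hsum : ∀ j < 8 ^ n, get (ent A (a + 3) + konst M n + (ent A (a + 2) + konst (3 * M) n) +
      (ent A (a + 1) + konst (5 * M) n) + (ent A a + konst (7 * M) n)) j =
      F (a + 3) j + M + (F (a + 2) j + 3 * M) + (F (a + 1) j + 5 * M) + (F a j + 7 * M) :=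
    fun j hj => by
    rw [get_add4 (n := n) (b := B + 7 * M) _ _ _ _ (by omega)
      (fun j hj => by rw [(h0 j hj).1]; exact (h0 j hj).2)
      (fun j hj => by rw [(h1 j hj).1]; exact (h1 j hj).2)
      (fun j hj => by rw [(h2 j hj).1]; exact (h2 j hj).2)
      (fun j hj => by rw [(h3 j hj).1]; exact (h3 j hj).2) hj,
      (h0 j hj).1, (h1 j hj).1, (h2 j hj).1, (h3 j hj).1]
  unfold fent FF
  rw [get_cdiv4 n _ J hJ fun k hk => by
    rw [hsum k hk]
    have := (h0 k hk).2; have := (h1 k hk).2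
    have := (h2 k hk).2; have := (h3 k hk).2
    omega, hsum J hJ]

theorem leP_sound {n A B c : ℕ} (h : leP n A B c = true) (hB : ∀ j < 8 ^ n, get B j < 2 ^ 24)
    (hc : c < 2 ^ 27) {J : ℕ} (hJ : J < 8 ^ n) : get A J ≤ get B J + c := by
  unfold leP at h
  simp only [Bool.and_eq_true] at h
  obtain ⟨h1, h2, h3⟩ := h
  have h1 : A ≤ B + konst c n := (Iff.of_eq Nat.ble_eq).1 h1
  have h2 := Nat.eq_of_beq_eq_true h2
  have h3 := Nat.eq_of_beq_eq_true h3
  obtain ⟨D, hD⟩ : ∃ D, B + konst c n = A + D := ⟨B + konst c n - A, by omega⟩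
  rw [hD, Nat.add_sub_cancel_left] at h2
  have hlt : ∀ T, T &&& konst (2 ^ 27) n = 0 → ∀ j < 8 ^ n, get T j < 2 ^ 27 := by
    intro T hT j hj
    have e := congrArg (fun x => get x j) hT
    simp only [get_and, get_zero, get_konst (2 ^ 27) n j (by norm_num) hj] at e
    by_contra hge
    have hb : (get T j).testBit 27 = true := by
      have h28 := get_lt T j
      have : get T j / 2 ^ 27 = 1 := by omega
      rw [Nat.testBit_eq_decide_div_mod_eq, this]
      simp
    have hb2 := congrArg (fun x => Nat.testBit x 27) e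
    simp only [Nat.testBit_and, hb, Nat.testBit_two_pow_self, Nat.zero_testBit] at hb2
    simp at hb2
  have e1 : get (B + konst c n) J = get B J + c := by
    rw [get_add _ _ _ fun j hj => by
      rw [get_konst c n j (by omega) (by omega)]
      have := hB j (by omega)
      omega, get_konst c n J (by omega) hJ]
  have e2 : get (A + D) J = get A J + get D J :=
    get_add _ _ _ fun j hj => by
      have := hlt A h3 j (by omega)
      have := hlt D h2 j (by omega)
      omega
  rw [hD, e2] at e1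
  omega

theorem bndL_sound {n : ℕ} {l : List ℕ} (h : bndL n l = true) (a J : ℕ) (ha : a < l.length)
    (hJ : J < 8 ^ n) : get (ent l a) J < 2 ^ 24 := by
  induction l generalizing a with
  | nil => simp at ha
  | cons A l ih =>
    simp only [bndL, Bool.and_eq_true] at h
    cases a with
    | zero =>
      have h1 := Nat.eq_of_beq_eq_true h.1
      have e := congrArg (fun x => get x J) h1
      simp only [get_and, get_zero, get_konst (2 ^ 28 - 2 ^ 24) n J (by norm_num) hJ] at e
      change get A J < 2 ^ 24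
      have h28 := get_lt A J
      by_contra hge
      have e2 : get A J &&& (2 ^ 28 - 2 ^ 24) = (get A J / 2 ^ 24) * 2 ^ 24 := by
        apply Nat.eq_of_testBit_eq
        intro j
        have e3 : (2 : ℕ) ^ 28 - 2 ^ 24 = (2 ^ 4 - 1) <<< 24 := by decide
        rw [e3, Nat.testBit_and, Nat.testBit_shiftLeft, Nat.testBit_two_pow_sub_one,
          ← Nat.shiftLeft_eq, Nat.testBit_shiftLeft, ← Nat.shiftRight_eq_div_pow,
          Nat.testBit_shiftRight]
        by_cases hj : 24 ≤ j
        · have e4 : 24 + (j - 24) = j := by omega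
          rw [e4]
          by_cases hj2 : j < 28
          · have : j - 24 < 4 := by omega
            simp [hj, this]
          · have : (get A J).testBit j = false := by
              apply Nat.testBit_lt_two_pow
              exact h28.trans_le (Nat.pow_le_pow_right (by norm_num) (by omega))
            simp [this]
        · simp [hj]
      rw [e2] at e
      have : 0 < get A J / 2 ^ 24 := Nat.div_pos (by omega) (by norm_num)
      omega
    | succ a =>
      exact ih h.2 a (by simpa using ha)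

theorem leL_sound {n c : ℕ} {l m : List ℕ} (h : leL n c l m = true) (a : ℕ) (ha : a < l.length)
    (ha' : a < m.length) : leP n (ent l a) (ent m a) c = true := by
  induction l generalizing m a with
  | nil => simp at ha
  | cons A l ih =>
    cases m with
    | nil => simp at ha'
    | cons B m =>
      simp only [leL, Bool.and_eq_true] at h
      cases a with
      | zero => exact h.1
      | succ a => exact ih h.2 a (by simpa using ha) (by simpa using ha')

/-- **Soundness of the certificate check.** -/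
theorem chk_sound {n M c : ℕ} {h : List ℕ} (hc : chk n M c h = true) (hc' : c < 2 ^ 27)
    (hB : 4 * (2 ^ 24 + 20 * M * (2 * n + 3)) + 3 < 2 ^ 28) :
    ∃ H : ℕ → ℕ → ℕ, ∀ a < 8, ∀ J < 8 ^ n, H a J < 2 ^ 24 ∧
      FF M (AF n M H n) a J ≤ H a J + c := by
  unfold chk at hc
  simp only [Bool.and_eq_true] at hc
  obtain ⟨h1, h2, h3⟩ := hc
  have h1 : h.length = 8 := Nat.eq_of_beq_eq_true h1
  refine ⟨fun a J => get (ent h a) J, fun a ha J hJ => ?_⟩
  have hb : ∀ a < 8, ∀ J < 8 ^ n, get (ent h a) J < 2 ^ 24 := fun a ha J hJ =>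
    bndL_sound h2 a J (by omega) hJ
  refine ⟨hb a ha J hJ, ?_⟩
  have r0 : Rep n 8 h (Fa n M (fun a J => get (ent h a) J) 0) (2 ^ 24 + 20 * M * 0) :=
    fun a ha J hJ => ⟨rfl, by have := hb a ha J hJ; simp only [Fa]; omega⟩
  have e0 : 20 * M * (n + 1) + 20 * M * (n + 1) + 20 * M = 20 * M * (2 * n + 3) := by ring
  have r1 := rep_vphase n 0 r0 (by omega) (by omega)
  rw [Nat.zero_add] at r1
  have r2 : RepQ n [vphase n M n 0 h, vphase n M n 0 h, vphase n M n 0 h, vphase n M n 0 h]
      (fun _ => Fb n M (fun a J => get (ent h a) J) n) (2 ^ 24 + 20 * M * (n + 1)) := by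
    intro j hj
    interval_cases j <;> exact r1
  have r3 := rep_hstep r2 (le_refl n) (M := M) (by omega)
  have r4 := rep_hphase (n := n) (M := M) (B := 2 ^ 24 + 20 * M * (n + 1) + 20 * M)
    (H := fun a J => get (ent h a) J) n
    (A := hstep n n M [vphase n M n 0 h, vphase n M n 0 h, vphase n M n 0 h, vphase n M n 0 h])
    le_rfl (by
      rw [Nat.sub_self]
      exact r3) (by omega)
  have hn : 20 * M * (n + 1) = 20 * M * n + 20 * M := by ring
  have r5 := rep_fent (M := M) r4 (by omega) ha hJ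
  have h4 := leL_sound h3 a (by
    have : (colop n M h).length = 8 := rfl
    omega) (by omega)
  have h5 := leP_sound h4 (fun j hj => hb a ha j hj) hc' hJ
  have e1 : ent (colop n M h) a = fent n M (hphase n M n (hstep n n M
      [vphase n M n 0 h, vphase n M n 0 h, vphase n M n 0 h, vphase n M n 0 h])) a := by
    interval_cases a <;> rfl
  rw [e1, r5] at h5
  exact h5

end H98.FPP
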