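import Pool.Agent.H98.FPP.Auto

/-!
# MP_ae266a_pr : the automaton constructs short paths
-/

namespace H98.FPP

/-! ### digits -/

theorem dlow {i j : ℕ} (r z : ℕ) (hj : j < i) : (r + 8 ^ i * z) / 8 ^ j % 8 = r / 8 ^ j % 8 := by
  have e : 8 ^ i = 8 ^ j * (8 * 8 ^ (i - j - 1)) := by
    rw [← pow_succ', ← pow_add]; congr 1; omega
  rw [e, mul_assoc, Nat.add_mul_div_left _ _ (pow8_pos j), mul_assoc, Nat.add_mul_mod_self_left]

theorem dhigh {i j r : ℕ} (z : ℕ) (hr : r < 8 ^ i) (hj : i ≤ j) :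
    (r + 8 ^ i * z) / 8 ^ j = z / 8 ^ (j - i) := by
  have e : 8 ^ j = 8 ^ i * 8 ^ (j - i) := by rw [← pow_add]; congr 1; omega
  rw [e, ← Nat.div_div_eq_div_mul, Nat.add_mul_div_left _ _ (pow8_pos i), Nat.div_eq_of_lt hr,
    Nat.zero_add]

theorem split (i J : ℕ) : J = J % 8 ^ i + 8 ^ i * (J / 8 ^ i) := (Nat.mod_add_div _ _).symm

theorem sub_pow {i J : ℕ} (h : 1 ≤ J / 8 ^ i) :
    J - 8 ^ i = J % 8 ^ i + 8 ^ i * (J / 8 ^ i - 1) := by
  have h1 := split i J
  obtain ⟨z, hz⟩ : ∃ z, J / 8 ^ i = z + 1 := ⟨J / 8 ^ i - 1, by omega⟩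
  rw [hz] at h1 ⊢
  rw [Nat.add_sub_cancel]
  have : 8 ^ i * (z + 1) = 8 ^ i * z + 8 ^ i := by ring
  generalize 8 ^ i * z = P at this ⊢
  generalize 8 ^ i * (z + 1) = Q at this h1
  omega

theorem add_pow' (i J : ℕ) : J + 8 ^ i = J % 8 ^ i + 8 ^ i * (J / 8 ^ i + 1) := by
  have h1 := split i J
  have : 8 ^ i * (J / 8 ^ i + 1) = 8 ^ i * (J / 8 ^ i) + 8 ^ i := by ring
  rw [this]
  generalize 8 ^ i * (J / 8 ^ i) = P at h1 ⊢
  omega

theorem setd_eq (i J b : ℕ) : setd i J b = J % 8 ^ i + 8 ^ i * (8 * (J / 8 ^ i / 8) + b) := by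
  have h1 := split i J
  have h2 : J / 8 ^ i = 8 * (J / 8 ^ i / 8) + J / 8 ^ i % 8 := (Nat.div_add_mod _ _).symm
  have h3 : 8 ^ i * (J / 8 ^ i) = 8 ^ i * (8 * (J / 8 ^ i / 8)) + (J / 8 ^ i % 8) * 8 ^ i := by
    conv_lhs => rw [h2]
    ring
  have h4 : 8 ^ i * (8 * (J / 8 ^ i / 8) + b) = 8 ^ i * (8 * (J / 8 ^ i / 8)) + b * 8 ^ i := by ring
  unfold setd
  rw [h4]
  rw [h3] at h1
  generalize 8 ^ i * (8 * (J / 8 ^ i / 8)) = P at h1 ⊢
  generalize J / 8 ^ i % 8 * 8 ^ i = Q at h1 ⊢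
  omega

theorem mod_lt8 (i J : ℕ) : J % 8 ^ i < 8 ^ i := Nat.mod_lt _ (pow8_pos i)

theorem setd_low {i j : ℕ} (J b : ℕ) (hj : j < i) : setd i J b / 8 ^ j % 8 = J / 8 ^ j % 8 := by
  rw [setd_eq, dlow _ _ hj]
  conv_rhs => rw [split i J, dlow _ _ hj]

theorem setd_self {i : ℕ} (J : ℕ) {b : ℕ} (hb : b < 8) : setd i J b / 8 ^ i % 8 = b := by
  rw [setd_eq, dhigh _ (mod_lt8 i J) le_rfl, Nat.sub_self, pow_zero, Nat.div_one]
  omega

theorem setd_high {i j : ℕ} (J : ℕ) {b : ℕ} (hb : b < 8) (hj : i < j) :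
    setd i J b / 8 ^ j = J / 8 ^ j := by
  rw [setd_eq, dhigh _ (mod_lt8 i J) hj.le]
  conv_rhs => rw [split i J, dhigh _ (mod_lt8 i J) hj.le]
  have e : 8 ^ (j - i) = 8 * 8 ^ (j - i - 1) := by rw [← pow_succ']; congr 1; omega
  rw [e, ← Nat.div_div_eq_div_mul, ← Nat.div_div_eq_div_mul]
  congr 1
  omega

theorem cidx_low {n r j : ℕ} (J : ℕ) (hr : r ≤ n) (hj : j < n - r) :
    cidx n r J / 8 ^ j % 8 = J / 8 ^ j % 8 := by
  induction r with
  | zero => rfl
  | succ r ih =>
    rw [cidx]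
    split_ifs with h
    · rw [add_pow', dlow _ _ (by omega)]
      conv_rhs => rw [split (n - 1 - r) J, dlow _ _ (by omega)]
    · exact ih (by omega) (by omega)

theorem itx_cidx_low {n r j : ℕ} (J k : ℕ) (hr : r ≤ n) (hj : j < n - r) :
    itx (cidx n r) k J / 8 ^ j % 8 = J / 8 ^ j % 8 := by
  induction k generalizing J with
  | zero => rfl
  | succ k ih => rw [itx, ih, cidx_low J hr hj]

/-! ### edges -/

inductive Edg where
  /-- from `(x,y)` to `(x+1,y)` -/
  | H (x y : ℕ) : Edg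
  /-- from `(x,y)` to `(x,y+1)` -/
  | V (x y : ℕ) : Edg

/-- time at which an edge is used -/
def key (n : ℕ) : Edg → ℕ
  | .H x y => (n + 1) + (2 * n + 3) * x + y
  | .V 0 y => y
  | .V (x + 1) y => (n + 1) + (2 * n + 3) * x + (2 * n + 2 - y)

/-- the predicate `R x y t` : the vertex `(x,y)` can be reached at cost `≤ t` -/
structure Geo (n m : ℕ) (β : ℕ → ℕ) (R : ℕ → ℕ → ℤ → Prop) : Prop where
  bin : ∀ t, β t < 4
  mono : ∀ {x y t t'}, R x y t → t ≤ t' → R x y t'
  zero : R 0 0 0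
  hor : ∀ {x y t}, x < m → y ≤ n + 1 → R x y t → R (x + 1) y (t + (2 * β (key n (.H x y)) + 1))
  up : ∀ {x y t}, x ≤ m → y ≤ n → R x y t → R x (y + 1) (t + (2 * β (key n (.V x y)) + 1))
  down : ∀ {x y t}, x ≤ m → y ≤ n → R x (y + 1) t → R x y (t + (2 * β (key n (.V x y)) + 1))

variable {n m : ℕ} {β : ℕ → ℕ} {R : ℕ → ℕ → ℤ → Prop}

theorem Geo.up7 (g : Geo n m β R) {x y : ℕ} {t t' : ℤ} (hx : x ≤ m) (hy : y ≤ n) (h : R x y t)
    (ht : t + 7 ≤ t') : R x (y + 1) t' := by
  refine g.mono (g.up hx hy h) ?_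
  have := g.bin (key n (.V x y))
  omega

theorem Geo.down7 (g : Geo n m β R) {x y : ℕ} {t t' : ℤ} (hx : x ≤ m) (hy : y ≤ n)
    (h : R x (y + 1) t) (ht : t + 7 ≤ t') : R x y t' := by
  refine g.mono (g.down hx hy h) ?_
  have := g.bin (key n (.V x y))
  omega

def dv (a : ℕ) : ℤ := 2 * a - 7

/-- validity of the rows below row `i`, which has the value `u` -/
def PV (R : ℕ → ℕ → ℤ → Prop) (x : ℕ) : ℕ → ℤ → ℕ → Prop
  | 0, _, _ => True
  | i + 1, u, J => R x i (u - dv (J / 8 ^ i % 8)) ∧ PV R x i (u - dv (J / 8 ^ i % 8)) J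

/-- validity of the rows above row `n-r+1`, which has the value `u` -/
def SV (n : ℕ) (R : ℕ → ℕ → ℤ → Prop) (x : ℕ) : ℕ → ℤ → ℕ → Prop
  | 0, _, _ => True
  | r + 1, u, J => R x (n - r + 1) (u + dv (J / 8 ^ (n - 1 - r) % 8)) ∧
      SV n R x r (u + dv (J / 8 ^ (n - 1 - r) % 8)) J

theorem PV_congr {x i : ℕ} {u : ℤ} {J J' : ℕ} (h : ∀ j < i, J / 8 ^ j % 8 = J' / 8 ^ j % 8)
    (hp : PV R x i u J) : PV R x i u J' := by
  induction i generalizing u with
  | zero => trivial
  | succ i ih =>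
    simp only [PV] at hp ⊢
    rw [← h i (by omega)]
    exact ⟨hp.1, ih (fun j hj => h j (by omega)) hp.2⟩

theorem SV_congr {x r : ℕ} {u : ℤ} {J J' : ℕ} (hr : r ≤ n)
    (h : ∀ j, n - r ≤ j → J / 8 ^ j % 8 = J' / 8 ^ j % 8)
    (hp : SV n R x r u J) : SV n R x r u J' := by
  induction r generalizing u with
  | zero => trivial
  | succ r ih =>
    simp only [SV] at hp ⊢
    rw [← h (n - 1 - r) (by omega)]
    exact ⟨hp.1, ih (by omega) (fun j hj => h j (by omega)) hp.2⟩

theorem PV_bor (g : Geo n m β R) {x i : ℕ} {u : ℤ} {J : ℕ} (hx : x ≤ m) (hi : i ≤ n + 1)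
    (hp : PV R x i u J) (hR : R x i (u - 2)) : PV R x i (u - 2) (bidx i J) := by
  induction i generalizing u with
  | zero => trivial
  | succ i ih =>
    simp only [PV] at hp
    rw [bidx]
    split_ifs with h
    · have h1 : 1 ≤ J / 8 ^ i := h.trans (Nat.mod_le _ _)
      have hd : (J - 8 ^ i) / 8 ^ i % 8 = J / 8 ^ i % 8 - 1 := by
        rw [sub_pow h1, dhigh _ (mod_lt8 i J) le_rfl, Nat.sub_self, pow_zero, Nat.div_one]
        omega
      have hv : u - 2 - dv (J / 8 ^ i % 8 - 1) = u - dv (J / 8 ^ i % 8) := by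
        unfold dv
        omega
      simp only [PV]
      rw [hd, hv]
      refine ⟨hp.1, PV_congr (fun j hj => ?_) hp.2⟩
      rw [sub_pow h1, dlow _ _ hj]
      conv_lhs => rw [split i J, dlow _ _ hj]
    · have hd0 : J / 8 ^ i % 8 = 0 := by omega
      have hd : bidx i J / 8 ^ i % 8 = 0 := by rw [digit_bidx i J i le_rfl]; exact hd0
      rw [hd0] at hp
      have hv : u - 2 - dv 0 = (u - dv 0) - 2 := by ring
      have hR' : R x i (u - dv 0 - 2) := g.down7 hx (by omega) hR (by unfold dv; omega)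
      simp only [PV]
      rw [hd, hv]
      exact ⟨hR', ih (by omega) hp.2 hR'⟩

theorem PV_itx (g : Geo n m β R) {x i : ℕ} (hx : x ≤ m) (hi : i ≤ n + 1) (k : ℕ) {u : ℤ} {J : ℕ}
    (hp : PV R x i u J) (hR : R x i (u - 2 * k)) : PV R x i (u - 2 * k) (itx (bidx i) k J) := by
  induction k generalizing u J with
  | zero => simpa [itx] using hp
  | succ k ih =>
    have e : u - 2 * ((k + 1 : ℕ) : ℤ) = (u - 2) - 2 * k := by push_cast; ring
    rw [e] at hR ⊢
    exact ih (PV_bor g hx hi hp (g.mono hR (by omega))) hR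

theorem SV_car (g : Geo n m β R) {x r : ℕ} {u : ℤ} {J : ℕ} (hx : x ≤ m) (hr : r ≤ n)
    (hp : SV n R x r u J) (hR : R x (n - r + 1) (u - 2)) :
    SV n R x r (u - 2) (cidx n r J) := by
  induction r generalizing u with
  | zero => trivial
  | succ r ih =>
    simp only [SV] at hp
    rw [cidx]
    split_ifs with h
    · have hd : (J + 8 ^ (n - 1 - r)) / 8 ^ (n - 1 - r) % 8 = J / 8 ^ (n - 1 - r) % 8 + 1 := by
        rw [add_pow', dhigh _ (mod_lt8 _ J) le_rfl, Nat.sub_self, pow_zero, Nat.div_one]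
        omega
      have hv : u - 2 + dv (J / 8 ^ (n - 1 - r) % 8 + 1) = u + dv (J / 8 ^ (n - 1 - r) % 8) := by
        unfold dv
        push_cast
        ring
      simp only [SV]
      rw [hd, hv]
      refine ⟨hp.1, SV_congr (by omega) (fun j hj => ?_) hp.2⟩
      rw [add_pow', dhigh _ (mod_lt8 _ J) (by omega)]
      conv_lhs => rw [split (n - 1 - r) J, dhigh _ (mod_lt8 _ J) (by omega)]
      have e : 8 ^ (j - (n - 1 - r)) = 8 * 8 ^ (j - (n - 1 - r) - 1) := by
        rw [← pow_succ']; congr 1; omega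
      rw [e, ← Nat.div_div_eq_div_mul, ← Nat.div_div_eq_div_mul]
      congr 2
      omega
    · have hd0 : J / 8 ^ (n - 1 - r) % 8 = 7 := by omega
      have hd : cidx n r J / 8 ^ (n - 1 - r) % 8 = 7 := by
        rw [cidx_low J (by omega) (by omega)]; exact hd0
      rw [hd0] at hp
      have hv : u - 2 + dv 7 = (u + dv 7) - 2 := by ring
      have e1 : n - (r + 1) + 1 + 1 = n - r + 1 := by omega
      have hR' : R x (n - r + 1) (u + dv 7 - 2) := by
        rw [← e1]
        exact g.up7 hx (by omega) hR (by unfold dv; omega)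
      simp only [SV]
      rw [hd, hv]
      exact ⟨hR', ih (by omega) hp.2 hR'⟩

theorem SV_itx (g : Geo n m β R) {x r : ℕ} (hx : x ≤ m) (hr : r ≤ n) (k : ℕ) {u : ℤ} {J : ℕ}
    (hp : SV n R x r u J) (hR : R x (n - r + 1) (u - 2 * k)) :
    SV n R x r (u - 2 * k) (itx (cidx n r) k J) := by
  induction k generalizing u J with
  | zero => simpa [itx] using hp
  | succ k ih =>
    have e : u - 2 * ((k + 1 : ℕ) : ℤ) = (u - 2) - 2 * k := by push_cast; ring
    rw [e] at hR ⊢
    exact ih (SV_car g hx hr hp (g.mono hR (by omega))) hR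

/-- validity of a state -/
def Inv (n : ℕ) (R : ℕ → ℕ → ℤ → Prop) : St → Prop
  | .idle k => 1 ≤ k ∧ k ≤ n + 1
  | .s0 x u a J => a < 8 ∧ J < 8 ^ n ∧ R x 0 u ∧ R x 1 (u + dv a) ∧ SV n R x n (u + dv a) J
  | .sh x i u J dl => i ≤ n ∧ dl ≤ 10 ∧ J < 8 ^ n ∧ R (x + 1) i u ∧ PV R (x + 1) i u J ∧
      R x (i + 1) (u + (2 * dl - 14)) ∧ SV n R x (n - i) (u + (2 * dl - 14)) J
  | .sv x i u J a => i ≤ n ∧ a < 8 ∧ J < 8 ^ n ∧ R (x + 1) (i + 1) u ∧ R (x + 1) i (u - dv a) ∧
      PV R (x + 1) i (u - dv a) J ∧ SV n R (x + 1) (n - i) u J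

/-- number of steps made -/
def pos (n : ℕ) : St → ℕ
  | .idle k => n + 1 - k
  | .s0 x _ _ _ => (n + 1) + (2 * n + 3) * x
  | .sh x i _ _ _ => (n + 1) + (2 * n + 3) * x + (i + 1)
  | .sv x i _ _ _ => (n + 1) + (2 * n + 3) * x + (2 * n + 2 - i)

theorem Inv_mv {x i : ℕ} {u : ℤ} {J a : ℕ} (hi : i ≤ n) (ha : a < 8)
    (hJ : J < 8 ^ n) (h1 : R (x + 1) i u) (h2 : R (x + 1) (i + 1) (u + dv a))
    (hp : PV R (x + 1) i u J) (hs : SV n R (x + 1) (n - i) (u + dv a) J) :
    Inv n R (mv x i u J a) ∧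
      pos n (mv x i u J a) = (n + 1) + (2 * n + 3) * x + (2 * n + 2 - i) + 1 := by
  cases i with
  | zero =>
    refine ⟨⟨ha, hJ, h1, h2, ?_⟩, ?_⟩
    · simpa using hs
    · simp only [mv, pos]
      ring_nf
      omega
  | succ i =>
    simp only [PV] at hp
    have hb : J / 8 ^ i % 8 < 8 := Nat.mod_lt _ (by norm_num)
    refine ⟨⟨by omega, hb, setd_lt n i J a (by omega) ha hJ, h1, hp.1, ?_, ?_⟩, ?_⟩
    · exact PV_congr (fun j hj => (setd_low J a hj).symm) hp.2
    · obtain ⟨r, hr⟩ : ∃ r, n - i = r + 1 := ⟨n - i - 1, by omega⟩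
      have e1 : n - 1 - r = i := by omega
      have e2 : n - r + 1 = i + 1 + 1 := by omega
      have e3 : n - (i + 1) = r := by omega
      rw [hr]
      simp only [SV]
      rw [e1, setd_self J ha, e2]
      rw [e3] at hs
      refine ⟨h2, SV_congr (by omega) (fun j hj => ?_) hs⟩
      rw [setd_high J ha (by omega)]
    · simp only [mv, pos]
      omega

theorem Inv_step (g : Geo n m β R) {σ : St} (h : Inv n R σ)
    (hx : pos n σ < (n + 1) + (2 * n + 3) * m)
    (h0 : ∀ y ≤ n + 1, R 0 y (7 * y)) :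
    Inv n R (step n σ (β (pos n σ))) ∧ pos n (step n σ (β (pos n σ))) = pos n σ + 1 := by
  have hbin := g.bin (pos n σ)
  have hcol : ∀ x, (n + 1) + (2 * n + 3) * x ≤ pos n σ → x < m := by
    intro x hxs
    by_contra hc
    have : (2 * n + 3) * m ≤ (2 * n + 3) * x := Nat.mul_le_mul_left _ (by omega)
    omega
  cases σ with
  | idle k =>
    obtain ⟨h1, h2⟩ := h
    have hstart : Inv n R (.s0 0 0 7 (8 ^ n - 1)) := by
      have hp := pow8_pos n
      refine ⟨by norm_num, by omega, h0 0 (by omega), ?_, ?_⟩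
      · have := h0 1 (by omega)
        simpa [dv] using this
      · have key : ∀ r ≤ n, SV n R 0 r (7 * ((n - r + 1 : ℕ) : ℤ)) (8 ^ n - 1) := by
          intro r
          induction r with
          | zero => intro _; trivial
          | succ r ih =>
            intro hr
            have hd : (8 ^ n - 1) / 8 ^ (n - 1 - r) % 8 = 7 := by
              have e : 8 ^ n = 8 ^ (n - 1 - r) * (8 * 8 ^ r) := by
                rw [← pow_succ', ← pow_add]; congr 1; omega
              have h8 := pow8_pos (n - 1 - r)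
              have e2 : 8 ^ n - 1 = (8 ^ (n - 1 - r) - 1) + 8 ^ (n - 1 - r) * (8 * 8 ^ r - 1) := by
                rw [e, Nat.mul_sub]
                have : 8 ^ (n - 1 - r) * 1 ≤ 8 ^ (n - 1 - r) * (8 * 8 ^ r) :=
                  Nat.mul_le_mul_left _ (by have := pow8_pos r; omega)
                generalize 8 ^ (n - 1 - r) * (8 * 8 ^ r) = P at this ⊢
                omega
              rw [e2, dhigh _ (by omega) le_rfl, Nat.sub_self, pow_zero, Nat.div_one]
              have := pow8_pos r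
              omega
            simp only [SV]
            rw [hd]
            have e3 : (7 * ((n - (r + 1) + 1 : ℕ) : ℤ)) + dv 7 = 7 * ((n - r + 1 : ℕ) : ℤ) := by
              unfold dv
              omega
            rw [e3]
            exact ⟨h0 _ (by omega), ih (by omega)⟩
        have := key n le_rfl
        simpa [dv] using this
    rcases k with _ | k
    · omega
    · simp only [step]
      split_ifs with hk
      · subst hk
        refine ⟨hstart, ?_⟩
        simp only [pos]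
        omega
      · refine ⟨⟨by omega, by omega⟩, ?_⟩
        simp only [pos]
        omega
  | s0 x u a J =>
    obtain ⟨ha, hJ, h1, h2, h3⟩ := h
    have hxm : x < m := hcol x (by simp only [pos]; omega)
    simp only [pos] at hbin ⊢
    obtain ⟨e, he⟩ : ∃ e, β ((n + 1) + (2 * n + 3) * x) = e := ⟨_, rfl⟩
    rw [he] at hbin ⊢
    have hk : key n (.H x 0) = (n + 1) + (2 * n + 3) * x := by simp [key]
    have hor := g.hor hxm (Nat.zero_le _) h1
    rw [hk, he] at hor
    have hd : ((a + 3 - e : ℕ) : ℤ) = a + 3 - e := by omega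
    have hv : u + (2 * (e : ℤ) + 1) + (2 * ((a + 3 - e : ℕ) : ℤ) - 14) = u + dv a := by
      rw [hd]; unfold dv; ring
    simp only [step]
    refine ⟨⟨Nat.zero_le _, by omega, hJ, hor, trivial, ?_, ?_⟩, ?_⟩
    · rw [hv]; exact h2
    · rw [hv]; exact h3
    · trivial
  | sh x i u J dl =>
    obtain ⟨hi, hdl, hJ, h1, hp, h2, hs⟩ := h
    have hxm : x < m := hcol x (by simp only [pos]; omega)
    simp only [pos] at hbin ⊢
    obtain ⟨e, he⟩ : ∃ e, β ((n + 1) + (2 * n + 3) * x + (i + 1)) = e := ⟨_, rfl⟩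
    rw [he] at hbin ⊢
    have hk : key n (.H x (i + 1)) = (n + 1) + (2 * n + 3) * x + (i + 1) := by simp [key]
    have hor := g.hor hxm (by omega) h2
    rw [hk, he] at hor
    have hor' : R (x + 1) (i + 1) (u + 2 * (dl + e) - 13) := g.mono hor (by omega)
    by_cases hin : i < n
    · -- old row `i+2`
      obtain ⟨r, hr⟩ : ∃ r, n - i = r + 1 := ⟨n - i - 1, by omega⟩
      have e1 : n - 1 - r = i := by omega
      have e2 : n - r + 1 = i + 1 + 1 := by omega
      have e3 : n - (i + 1) = r := by omega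
      rw [hr] at hs
      simp only [SV] at hs
      rw [e1, e2] at hs
      obtain ⟨hs1, hs2⟩ := hs
      have hq : J / 8 ^ i % 8 < 8 := Nat.mod_lt _ (by norm_num)
      obtain ⟨q, hqe⟩ : ∃ q, J / 8 ^ i % 8 = q := ⟨_, rfl⟩
      rw [hqe] at hs1 hs2 hq
      simp only [step, if_pos hin, hqe]
      split_ifs with hc1 hc2
      · have hv : u + 7 + (2 * ((q + (3 - e + (dl + e - 10)) : ℕ) : ℤ) - 14) =
            u + (2 * dl - 14) + dv q := by
          unfold dv; omega
        refine ⟨⟨hin, by omega, setd_lt n i J 7 hin (by norm_num) hJ,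
          g.up7 hxm (by omega) h1 le_rfl, ?_, ?_, ?_⟩, ?_⟩
        · simp only [PV]
          rw [setd_self J (by norm_num)]
          have : u + 7 - dv 7 = u := by unfold dv; ring
          rw [this]
          exact ⟨h1, PV_congr (fun j hj => (setd_low J 7 hj).symm) hp⟩
        · rw [hv]; exact hs1
        · rw [hv, e3]
          refine SV_congr (by omega) (fun j hj => ?_) hs2
          rw [setd_high J (by norm_num) (by omega)]
        · ring
      · obtain ⟨k, hk3⟩ : ∃ k, 3 - (dl + e) = k := ⟨_, rfl⟩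
        rw [hk3]
        have hke : u + 2 * ((dl : ℤ) + e) - 13 = u - 2 * k - 7 := by omega
        have hv : u + 2 * ((dl : ℤ) + e) - 13 + (2 * ((q + (3 - e) : ℕ) : ℤ) - 14) =
            u + (2 * dl - 14) + dv q := by
          unfold dv; omega
        have hRi : R (x + 1) i (u - 2 * k) := g.down7 hxm hi hor' (by omega)
        have hbl : itx (bidx i) k J < 8 ^ n := itx_lt n _ (fun J hJ => bidx_lt n i J hJ) _ _ hJ
        refine ⟨⟨hin, by omega, setd_lt n i _ 0 hin (by norm_num) hbl, hor', ?_, ?_, ?_⟩, ?_⟩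
        · simp only [PV]
          rw [setd_self _ (by norm_num)]
          have : u + 2 * ((dl : ℤ) + e) - 13 - dv 0 = u - 2 * k := by unfold dv; omega
          rw [this]
          exact ⟨hRi, PV_congr (fun j hj => (setd_low _ 0 hj).symm)
            (PV_itx g hxm (by omega) k hp hRi)⟩
        · rw [hv]; exact hs1
        · rw [hv, e3]
          refine SV_congr (by omega) (fun j hj => ?_) hs2
          rw [setd_high _ (by norm_num) (by omega), digit_itx_bidx i k J j (by omega)]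
        · ring
      · have hd : ((dl + e - 3 : ℕ) : ℤ) = dl + e - 3 := by omega
        have hv : u + 2 * ((dl : ℤ) + e) - 13 + (2 * ((q + (3 - e) : ℕ) : ℤ) - 14) =
            u + (2 * dl - 14) + dv q := by
          unfold dv; omega
        refine ⟨⟨hin, by omega, setd_lt n i _ _ hin (by omega) hJ, hor', ?_, ?_, ?_⟩, ?_⟩
        · simp only [PV]
          rw [setd_self _ (by omega)]
          have : u + 2 * ((dl : ℤ) + e) - 13 - dv (dl + e - 3) = u := by
            unfold dv; rw [hd]; ring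
          rw [this]
          exact ⟨h1, PV_congr (fun j hj => (setd_low _ _ hj).symm) hp⟩
        · rw [hv]; exact hs1
        · rw [hv, e3]
          refine SV_congr (by omega) (fun j hj => ?_) hs2
          rw [setd_high _ (by omega) (by omega)]
        · ring
    · have hin' : i = n := by omega
      subst hin'
      simp only [step, if_neg hin]
      split_ifs with hc1 hc2
      · refine ⟨⟨le_rfl, by norm_num, hJ, g.up7 hxm le_rfl h1 le_rfl, ?_, ?_, ?_⟩, ?_⟩
        · have : u + 7 - dv 7 = u := by unfold dv; ring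
          rw [this]; exact h1
        · have : u + 7 - dv 7 = u := by unfold dv; ring
          rw [this]; exact hp
        · rw [Nat.sub_self]; trivial
        · simp only [pos]; omega
      · obtain ⟨k, hk3⟩ : ∃ k, 3 - (dl + e) = k := ⟨_, rfl⟩
        rw [hk3]
        have hRi : R (x + 1) i (u - 2 * k) := g.down7 hxm hi hor' (by omega)
        have hbl : itx (bidx i) k J < 8 ^ i := itx_lt i _ (fun J hJ => bidx_lt i i J hJ) _ _ hJ
        have hv : u + 2 * ((dl : ℤ) + e) - 13 - dv 0 = u - 2 * k := by unfold dv; omega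
        refine ⟨⟨le_rfl, by norm_num, hbl, hor', ?_, ?_, ?_⟩, ?_⟩
        · rw [hv]; exact hRi
        · rw [hv]; exact PV_itx g hxm (by omega) k hp hRi
        · rw [Nat.sub_self]; trivial
        · simp only [pos]; omega
      · have hd : ((dl + e - 3 : ℕ) : ℤ) = dl + e - 3 := by omega
        have hv : u + 2 * ((dl : ℤ) + e) - 13 - dv (dl + e - 3) = u := by
          unfold dv; rw [hd]; ring
        refine ⟨⟨le_rfl, by omega, hJ, hor', ?_, ?_, ?_⟩, ?_⟩
        · rw [hv]; exact h1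
        · rw [hv]; exact hp
        · rw [Nat.sub_self]; trivial
        · simp only [pos]; omega
  | sv x i u J a =>
    obtain ⟨hi, ha, hJ, h1, h2, hp, hs⟩ := h
    have hxm : x < m := hcol x (by simp only [pos]; omega)
    simp only [pos] at hbin ⊢
    obtain ⟨e, he⟩ : ∃ e, β ((n + 1) + (2 * n + 3) * x + (2 * n + 2 - i)) = e := ⟨_, rfl⟩
    rw [he] at hbin ⊢
    have hk : key n (.V (x + 1) i) = (n + 1) + (2 * n + 3) * x + (2 * n + 2 - i) := rfl
    have hw : u - (2 * (a : ℤ) - 7) = u - dv a := rfl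
    simp only [step]
    split_ifs with hc1 hc2
    · obtain ⟨k, hk3⟩ : ∃ k, a - (e + 4) = k := ⟨_, rfl⟩
      rw [hk3, hw]
      have hup := g.up hxm hi h2
      rw [hk, he] at hup
      have hv : u - dv a + dv (e + 4) = u - 2 * k := by unfold dv; omega
      have hR1 : R (x + 1) (i + 1) (u - 2 * k) := g.mono hup (by rw [← hv]; unfold dv; omega)
      have hcl : itx (cidx n (n - i)) k J < 8 ^ n :=
        itx_lt n _ (fun J hJ => cidx_lt n _ J (by omega) hJ) _ _ hJ
      refine Inv_mv hi (by omega) hcl h2 (by rw [hv]; exact hR1) ?_ ?_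
      · exact PV_congr (fun j hj => (itx_cidx_low J k (by omega) (by omega)).symm) hp
      · rw [hv]
        refine SV_itx g hxm (by omega) k hs ?_
        have : n - (n - i) + 1 = i + 1 := by omega
        rw [this]
        exact hR1
    · obtain ⟨k, hk3⟩ : ∃ k, 3 - e - a = k := ⟨_, rfl⟩
      rw [hk3]
      have hdn := g.down hxm hi h1
      rw [hk, he] at hdn
      have hv : u - dv a - 2 * k = u + (2 * e + 1) := by unfold dv; omega
      have hv2 : u + (2 * (e : ℤ) + 1) + dv (3 - e) = u := by unfold dv; omega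
      have hbl : itx (bidx i) k J < 8 ^ n := itx_lt n _ (fun J hJ => bidx_lt n i J hJ) _ _ hJ
      refine Inv_mv hi (by omega) hbl hdn (by rw [hv2]; exact h1) ?_ ?_
      · have := PV_itx g hxm (by omega) k hp (by rw [hv]; exact hdn)
        rwa [hv] at this
      · rw [hv2]
        refine SV_congr (by omega) (fun j hj => ?_) hs
        rw [digit_itx_bidx i k J j (by omega)]
    · rw [hw]
      have hv : u - dv a + dv a = u := by ring
      exact Inv_mv hi ha hJ h2 (by rw [hv]; exact h1) hp (by rw [hv]; exact hs)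

end H98.FPP
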