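import Mathlib

/-!
# MP_ae266a_pr : packed tables

A table is a natural number, read as a sequence of fields of 28 bits.  All operations below are
built from the binary operations which the kernel evaluates natively.
-/

namespace H98.FPP

/-- field `i` of `T` -/
def get (T i : ℕ) : ℕ := (T >>> (28 * i)) % 2 ^ 28

/-- shift up by `m` fields -/
def fsl (T m : ℕ) : ℕ := T <<< (28 * m)

/-- shift down by `m` fields -/
def fsr (T m : ℕ) : ℕ := T >>> (28 * m)

/-- `tile c s f` : blocks `f 0, …, f (c-1)` of `s` fields each -/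
def tile : ℕ → ℕ → (ℕ → ℕ) → ℕ
  | 0, _, _ => 0
  | c + 1, s, f => tile c s f ||| fsl (f c) (c * s)

/-- `8^n` fields with all bits set -/
def full (n : ℕ) : ℕ := 2 ^ (28 * 8 ^ n) - 1

/-- all bits set in the fields `J < 8^n` whose digit number `i` satisfies `P` -/
def maskP (i : ℕ) (P : ℕ → Bool) : ℕ → ℕ
  | 0 => 0
  | n + 1 => bif Nat.beq i n then tile 8 (8 ^ n) (fun a => bif P a then full n else 0)
      else tile 8 (8 ^ n) (fun _ => maskP i P n)

/-- value `c` in all fields `J < 8^n` -/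
def konst (c : ℕ) : ℕ → ℕ
  | 0 => c
  | n + 1 => tile 8 (8 ^ n) (fun _ => konst c n)

/-- fields of `A` where digit `i` satisfies `P`, fields of `B` elsewhere -/
def sel (n i : ℕ) (P : ℕ → Bool) (A B : ℕ) : ℕ :=
  (A &&& maskP i P n) ||| (B &&& maskP i (fun a => !P a) n)

/-- `borrow` on the digits `0, …, i-1` -/
def bor (n : ℕ) : ℕ → ℕ → ℕ
  | 0, T => T
  | i + 1, T => sel n i (fun a => Nat.ble 1 a) (fsl T (8 ^ i)) (bor n i T)

/-- `carry` on the digits `n-r, …, n-1` -/
def car (n : ℕ) : ℕ → ℕ → ℕ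
  | 0, T => T
  | r + 1, T => sel n (n - 1 - r) (fun a => Nat.ble a 6) (fsr T (8 ^ (n - 1 - r))) (car n r T)

/-- `m`-fold application -/
def iter (f : ℕ → ℕ) : ℕ → ℕ → ℕ
  | 0, T => T
  | m + 1, T => f (iter f m T)

/-- fieldwise `⌈A/4⌉` -/
def cdiv4 (n A : ℕ) : ℕ := ((A + konst 3 n) >>> 2) &&& konst (2 ^ 26 - 1) n

/-- one summand of a transposed table -/
def trn1 (n i a b T : ℕ) : ℕ :=
  (bif Nat.ble b a then fsl T ((a - b) * 8 ^ i) else fsr T ((b - a) * 8 ^ i)) &&&
    maskP i (fun c => Nat.beq c a) n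

/-- exchange of the list index and digit `i`: entry `b` -/
def trnb (n i b : ℕ) : ℕ → List ℕ → ℕ
  | _, [] => 0
  | a, T :: l => trn1 n i a b T ||| trnb n i b (a + 1) l

def trn (n i : ℕ) (l : List ℕ) : List ℕ :=
  [trnb n i 0 0 l, trnb n i 1 0 l, trnb n i 2 0 l, trnb n i 3 0 l,
   trnb n i 4 0 l, trnb n i 5 0 l, trnb n i 6 0 l, trnb n i 7 0 l]

/-- entry of a list of tables -/
def ent (l : List ℕ) (a : ℕ) : ℕ := l.getD a 0

/-- vertical edge: contribution of bin `e` to the entry `a` -/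
def vterm (n i M : ℕ) (t : List ℕ) (a e : ℕ) : ℕ :=
  bif Nat.blt (e + 4) a then iter (car n (n - i)) (a - (e + 4)) (ent t (e + 4)) + konst (6 * M) n
  else bif Nat.blt a (3 - e) then
    iter (bor n i) (3 - e - a) (ent t (3 - e)) + konst (2 * M * (3 - (3 - e - a))) n
  else ent t a + konst (6 * M) n

def vent (n i M : ℕ) (t : List ℕ) (a : ℕ) : ℕ :=
  cdiv4 n (vterm n i M t a 0 + vterm n i M t a 1 + vterm n i M t a 2 + vterm n i M t a 3) +
    konst (2 * M * (7 - a)) n

def vstep (n i M : ℕ) (t : List ℕ) : List ℕ :=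
  [vent n i M t 0, vent n i M t 1, vent n i M t 2, vent n i M t 3,
   vent n i M t 4, vent n i M t 5, vent n i M t 6, vent n i M t 7]

/-- vertical phase: edges `i, i+1, …, i+c` -/
def vphase (n M : ℕ) : ℕ → ℕ → List ℕ → List ℕ
  | 0, i, t => vstep n i M t
  | c + 1, i, t => vphase n M c (i + 1) (trn n i (vstep n i M t))

/-- horizontal edge, bin `e`, entry `δ`; `Q j d` -/
def hterm (n i M : ℕ) (Q : List (List ℕ)) (dl e : ℕ) : ℕ :=
  bif Nat.blt 10 (dl + e) then ent (Q.getD (3 - e + (dl + e - 10)) []) 7 + konst (20 * M) n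
  else bif Nat.blt (dl + e) 3 then
    iter (bor n i) (3 - (dl + e)) (ent (Q.getD (3 - e) []) 0) + konst (2 * M * (dl + e)) n
  else ent (Q.getD (3 - e) []) (dl + e - 3) + konst (2 * M * (dl + e)) n

def hent (n i M : ℕ) (Q : List (List ℕ)) (dl : ℕ) : ℕ :=
  cdiv4 n (hterm n i M Q dl 0 + hterm n i M Q dl 1 + hterm n i M Q dl 2 + hterm n i M Q dl 3)

def hstep (n i M : ℕ) (Q : List (List ℕ)) : List ℕ :=
  [hent n i M Q 0, hent n i M Q 1, hent n i M Q 2, hent n i M Q 3, hent n i M Q 4, hent n i M Q 5,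
   hent n i M Q 6, hent n i M Q 7, hent n i M Q 8, hent n i M Q 9, hent n i M Q 10]

/-- the four transposed windows of a list of 11 tables -/
def win (n i : ℕ) (A : List ℕ) : List (List ℕ) :=
  [trn n i (A.take 8), trn n i ((A.drop 1).take 8), trn n i ((A.drop 2).take 8),
   trn n i ((A.drop 3).take 8)]

/-- horizontal phase: rows `i, i-1, …, 0` -/
def hphase (n M : ℕ) : ℕ → List ℕ → List ℕ
  | 0, A => A
  | i + 1, A => hphase n M i (hstep n i M (win n i A))

/-- last horizontal edge (row 0) -/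
def fent (n M : ℕ) (A : List ℕ) (a : ℕ) : ℕ :=
  cdiv4 n (ent A (a + 3) + konst M n + (ent A (a + 2) + konst (3 * M) n) +
    (ent A (a + 1) + konst (5 * M) n) + (ent A a + konst (7 * M) n))

/-- the column operator applied to the list `h` of 8 tables with `n` digits -/
def colop (n M : ℕ) (h : List ℕ) : List ℕ :=
  let g := vphase n M n 0 h
  let A := hphase n M n (hstep n n M [g, g, g, g])
  [fent n M A 0, fent n M A 1, fent n M A 2, fent n M A 3, fent n M A 4, fent n M A 5,
   fent n M A 6, fent n M A 7]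

/-- fieldwise comparison `A ≤ B + c` (all fields of `A`, `B + c` being `< 2^27`) -/
def leP (n A B : ℕ) (c : ℕ) : Bool :=
  Nat.ble A (B + konst c n) && (Nat.beq ((B + konst c n - A) &&& konst (2 ^ 27) n) 0 &&
    Nat.beq (A &&& konst (2 ^ 27) n) 0)

def leL (n c : ℕ) : List ℕ → List ℕ → Bool
  | A :: l, B :: m => leP n A B c && leL n c l m
  | _, _ => true

/-- all fields are `< 2^24` -/
def bndL (n : ℕ) : List ℕ → Bool
  | [] => true
  | A :: l => Nat.beq (A &&& konst (2 ^ 28 - 2 ^ 24) n) 0 && bndL n l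

/-- the certificate check -/
def chk (n M c : ℕ) (h : List ℕ) : Bool :=
  Nat.beq h.length 8 && (bndL n h && leL n c (colop n M h) h)

/-- concatenation of blocks of `s` bits -/
def cat (s : ℕ) : List ℕ → ℕ
  | [] => 0
  | a :: l => a ||| ((cat s l) <<< s)

end H98.FPP
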