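import Pool.Agent.H98.FPP.Ops

/-!
# MP_ae266a_pr : packed tables, lemmas about fields
-/

namespace H98.FPP

theorem get_lt (T i : ℕ) : get T i < 2 ^ 28 := Nat.mod_lt _ (by norm_num)

theorem testBit_get (T i j : ℕ) :
    (get T i).testBit j = (decide (j < 28) && T.testBit (28 * i + j)) := by
  unfold get
  rw [Nat.testBit_mod_two_pow, Nat.testBit_shiftRight]

theorem get_fsl (T m i : ℕ) : get (fsl T m) i = if i < m then 0 else get T (i - m) := by
  apply Nat.eq_of_testBit_eq
  intro j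
  rw [testBit_get]
  unfold fsl
  rw [Nat.testBit_shiftLeft]
  split_ifs with h
  · rw [Nat.zero_testBit]
    by_cases hj : j < 28
    · have : ¬ (28 * i + j ≥ 28 * m) := by omega
      simp [this]
    · simp [hj]
  · rw [testBit_get]
    by_cases hj : j < 28
    · have h1 : 28 * i + j ≥ 28 * m := by omega
      have h2 : 28 * i + j - 28 * m = 28 * (i - m) + j := by omega
      simp [h1, h2]
    · simp [hj]

theorem get_fsr (T m i : ℕ) : get (fsr T m) i = get T (i + m) := by
  apply Nat.eq_of_testBit_eq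
  intro j
  rw [testBit_get, testBit_get]
  unfold fsr
  rw [Nat.testBit_shiftRight]
  have : 28 * m + (28 * i + j) = 28 * (i + m) + j := by ring
  rw [this]

theorem get_and (A B i : ℕ) : get (A &&& B) i = get A i &&& get B i := by
  apply Nat.eq_of_testBit_eq
  intro j
  rw [testBit_get, Nat.testBit_and, Nat.testBit_and, testBit_get, testBit_get]
  cases decide (j < 28) <;> simp

theorem get_or (A B i : ℕ) : get (A ||| B) i = get A i ||| get B i := by
  apply Nat.eq_of_testBit_eq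
  intro j
  rw [testBit_get, Nat.testBit_or, Nat.testBit_or, testBit_get, testBit_get]
  cases decide (j < 28) <;> simp

@[simp] theorem get_zero (i : ℕ) : get 0 i = 0 := by
  unfold get
  simp

theorem and_ones (x : ℕ) (hx : x < 2 ^ 28) : x &&& (2 ^ 28 - 1) = x := by
  rw [Nat.and_two_pow_sub_one_eq_mod, Nat.mod_eq_of_lt hx]

theorem get_eq_div (T i : ℕ) : get T i = T / (2 ^ 28) ^ i % 2 ^ 28 := by
  unfold get
  rw [Nat.shiftRight_eq_div_pow, pow_mul]

/-- no carries: fieldwise addition -/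
theorem get_add (A B i : ℕ) (h : ∀ j ≤ i, get A j + get B j < 2 ^ 28) :
    get (A + B) i = get A i + get B i := by
  have key : ∀ m, (∀ j < m, get A j + get B j < 2 ^ 28) →
      A % (2 ^ 28) ^ m + B % (2 ^ 28) ^ m < (2 ^ 28) ^ m := by
    intro m
    induction m with
    | zero => intro _; simp [Nat.mod_one]
    | succ m ih =>
      intro hm
      have h1 := ih fun j hj => hm j (by omega)
      have h2 := hm m (by omega)
      rw [get_eq_div, get_eq_div] at h2
      rw [Nat.mod_pow_succ, Nat.mod_pow_succ (x := B)]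
      have h3 : A / (2 ^ 28) ^ m % 2 ^ 28 + B / (2 ^ 28) ^ m % 2 ^ 28 + 1 ≤ 2 ^ 28 := h2
      calc A % (2 ^ 28) ^ m + (2 ^ 28) ^ m * (A / (2 ^ 28) ^ m % 2 ^ 28) +
            (B % (2 ^ 28) ^ m + (2 ^ 28) ^ m * (B / (2 ^ 28) ^ m % 2 ^ 28))
          = (A % (2 ^ 28) ^ m + B % (2 ^ 28) ^ m) + (2 ^ 28) ^ m *
            (A / (2 ^ 28) ^ m % 2 ^ 28 + B / (2 ^ 28) ^ m % 2 ^ 28) := by ring
        _ < (2 ^ 28) ^ m + (2 ^ 28) ^ m *
            (A / (2 ^ 28) ^ m % 2 ^ 28 + B / (2 ^ 28) ^ m % 2 ^ 28) := by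
            exact Nat.add_lt_add_right h1 _
        _ = (2 ^ 28) ^ m * (A / (2 ^ 28) ^ m % 2 ^ 28 + B / (2 ^ 28) ^ m % 2 ^ 28 + 1) := by ring
        _ ≤ (2 ^ 28) ^ m * 2 ^ 28 := Nat.mul_le_mul_left _ h3
        _ = (2 ^ 28) ^ (m + 1) := (pow_succ _ _).symm
  have h1 := key i fun j hj => h j hj.le
  have h2 := h i le_rfl
  rw [get_eq_div, get_eq_div] at h2 ⊢
  rw [get_eq_div]
  have hd : (A + B) / (2 ^ 28) ^ i = A / (2 ^ 28) ^ i + B / (2 ^ 28) ^ i := by
    have hpos : 0 < (2 ^ 28) ^ i := by positivity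
    rw [Nat.add_div hpos, if_neg (by omega), Nat.add_zero]
  rw [hd, Nat.add_mod, Nat.mod_eq_of_lt h2]

theorem get_full (n i : ℕ) : get (full n) i = if i < 8 ^ n then 2 ^ 28 - 1 else 0 := by
  apply Nat.eq_of_testBit_eq
  intro j
  rw [testBit_get]
  unfold full
  rw [Nat.testBit_two_pow_sub_one]
  split_ifs with h
  · rw [Nat.testBit_two_pow_sub_one]
    by_cases hj : j < 28
    · have : 28 * i + j < 28 * 8 ^ n := by omega
      simp [hj, this]
    · simp [hj]
  · have : ¬ (28 * i + j < 28 * 8 ^ n) := by omega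
    simp [this]

/-- `get` of a tiling -/
theorem get_tile (c s : ℕ) (f : ℕ → ℕ) (hf : ∀ a < c, ∀ i, s ≤ i → get (f a) i = 0)
    (x a : ℕ) (hx : x < s) : get (tile c s f) (x + s * a) = if a < c then get (f a) x else 0 := by
  induction c with
  | zero => simp [tile]
  | succ c ih =>
    rw [tile, get_or, ih fun a ha => hf a (by omega), get_fsl]
    rcases lt_trichotomy a c with h | h | h
    · have h1 : x + s * a < c * s := by
        calc x + s * a < s + s * a := by omega
          _ = s * (a + 1) := by ring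
          _ ≤ s * c := Nat.mul_le_mul_left _ h
          _ = c * s := by ring
      rw [if_pos h, if_pos h1, if_pos (by omega), Nat.or_zero]
    · subst h
      have h1 : ¬ (x + s * a < a * s) := by rw [mul_comm s a]; omega
      have h2 : x + s * a - a * s = x := by rw [mul_comm s a]; omega
      rw [if_neg (lt_irrefl _), if_neg h1, if_pos (by omega), h2, Nat.zero_or]
    · have h1 : ¬ (x + s * a < c * s) := by
        have : c * s ≤ s * a := by rw [mul_comm c s]; exact Nat.mul_le_mul_left _ h.le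
        omega
      have h2 : s ≤ x + s * a - c * s := by
        have : s * (c + 1) ≤ s * a := Nat.mul_le_mul_left _ h
        have e : s * (c + 1) = c * s + s := by ring
        omega
      rw [if_neg (by omega), if_neg h1, if_neg (by omega), hf c (by omega) _ h2, Nat.zero_or]

theorem get_tile_of_le (c s : ℕ) (f : ℕ → ℕ) (hf : ∀ a < c, ∀ i, s ≤ i → get (f a) i = 0)
    (hs : 0 < s) (i : ℕ) (hi : c * s ≤ i) : get (tile c s f) i = 0 := by
  have e : i = i % s + s * (i / s) := (Nat.mod_add_div i s).symm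
  have h1 : c ≤ i / s := by rwa [Nat.le_div_iff_mul_le hs]
  rw [e, get_tile c s f hf _ _ (Nat.mod_lt _ hs), if_neg (by omega)]

theorem pow8_pos (n : ℕ) : 0 < 8 ^ n := by positivity

theorem get_full_of_le (n i : ℕ) (h : 8 ^ n ≤ i) : get (full n) i = 0 := by
  rw [get_full, if_neg (by omega)]

theorem get_maskP_of_le (i : ℕ) (P : ℕ → Bool) (n J : ℕ) (h : 8 ^ n ≤ J) :
    get (maskP i P n) J = 0 := by
  induction n generalizing J with
  | zero => simp [maskP]
  | succ n ih =>
    rw [maskP]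
    have h8 : 8 * 8 ^ n ≤ J := by rw [pow_succ] at h; omega
    cases hin : Nat.beq i n
    · rw [cond_false]
      exact get_tile_of_le _ _ _ (fun a _ j hj => ih j hj) (pow8_pos n) _ h8
    · rw [cond_true]
      refine get_tile_of_le _ _ _ (fun a _ j hj => ?_) (pow8_pos n) _ h8
      cases P a
      · simp
      · simp only [cond_true]; exact get_full_of_le _ _ hj

theorem get_maskP (i : ℕ) (P : ℕ → Bool) (n J : ℕ) (hi : i < n) (hJ : J < 8 ^ n) :
    get (maskP i P n) J = bif P (J / 8 ^ i % 8) then 2 ^ 28 - 1 else 0 := by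
  induction n generalizing J with
  | zero => omega
  | succ n ih =>
    rw [maskP]
    have e : J = J % 8 ^ n + 8 ^ n * (J / 8 ^ n) := (Nat.mod_add_div J _).symm
    have ha : J / 8 ^ n < 8 := by
      rw [Nat.div_lt_iff_lt_mul (pow8_pos n)]
      rw [pow_succ] at hJ
      omega
    have hx : J % 8 ^ n < 8 ^ n := Nat.mod_lt _ (pow8_pos n)
    cases hin : Nat.beq i n
    · rw [cond_false]
      have hne : i ≠ n := by
        intro h
        rw [h] at hin
        simp at hin
      have hlt : i < n := by omega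
      conv_lhs => rw [e]
      rw [get_tile _ _ _ (fun a _ j hj => get_maskP_of_le i P n j hj) _ _ hx, if_pos ha,
        ih _ hlt hx]
      have hd : J % 8 ^ n / 8 ^ i % 8 = J / 8 ^ i % 8 := by
        have h1 : 8 ^ n = 8 ^ i * 8 ^ (n - i) := by rw [← pow_add]; congr 1; omega
        rw [h1, Nat.mod_mul_right_div_self, Nat.mod_mod_of_dvd]
        have : n - i = (n - i - 1) + 1 := by omega
        rw [this, pow_succ]
        exact Dvd.intro_left _ rfl
      rw [hd]
    · rw [cond_true]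
      have hin' : i = n := Nat.eq_of_beq_eq_true hin
      subst hin'
      conv_lhs => rw [e]
      rw [get_tile _ _ _ _ _ _ hx, if_pos ha, Nat.mod_eq_of_lt ha]
      · cases P (J / 8 ^ i)
        · simp
        · simp only [cond_true]; rw [get_full, if_pos hx]
      · intro a _ j hj
        cases P a
        · simp
        · simp only [cond_true]; exact get_full_of_le _ _ hj

theorem get_sel (n i : ℕ) (P : ℕ → Bool) (A B J : ℕ) (hi : i < n) (hJ : J < 8 ^ n) :
    get (sel n i P A B) J = if P (J / 8 ^ i % 8) = true then get A J else get B J := by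
  rw [sel, get_or, get_and, get_and, get_maskP i _ n J hi hJ, get_maskP i _ n J hi hJ]
  cases P (J / 8 ^ i % 8)
  · simp only [cond_false, Nat.and_zero, Bool.not_false, cond_true, Nat.zero_or,
      Bool.false_eq_true, if_false]
    exact and_ones _ (get_lt _ _)
  · simp only [cond_false, Nat.and_zero, Bool.not_true, cond_true, Nat.or_zero, if_true]
    exact and_ones _ (get_lt _ _)

theorem get_konst_of_le (c n J : ℕ) (hc : c < 2 ^ 28) (h : 8 ^ n ≤ J) :
    get (konst c n) J = 0 := by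
  induction n generalizing J with
  | zero =>
    rw [konst, get_eq_div, Nat.div_eq_of_lt, Nat.zero_mod]
    have : 1 ≤ J := by simpa using h
    calc c < (2 ^ 28) ^ 1 := by simpa using hc
      _ ≤ (2 ^ 28) ^ J := Nat.pow_le_pow_right (by norm_num) this
  | succ n ih =>
    rw [konst]
    refine get_tile_of_le _ _ _ (fun a _ j hj => ih j hj) (pow8_pos n) _ ?_
    rw [pow_succ] at h; omega

theorem get_konst (c n J : ℕ) (hc : c < 2 ^ 28) (hJ : J < 8 ^ n) : get (konst c n) J = c := by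
  induction n generalizing J with
  | zero =>
    have : J = 0 := by simpa using hJ
    subst this
    rw [konst, get_eq_div, pow_zero, Nat.div_one, Nat.mod_eq_of_lt hc]
  | succ n ih =>
    rw [konst]
    have e : J = J % 8 ^ n + 8 ^ n * (J / 8 ^ n) := (Nat.mod_add_div J _).symm
    have ha : J / 8 ^ n < 8 := by
      rw [Nat.div_lt_iff_lt_mul (pow8_pos n)]
      rw [pow_succ] at hJ
      omega
    have hx : J % 8 ^ n < 8 ^ n := Nat.mod_lt _ (pow8_pos n)
    rw [e, get_tile _ _ _ (fun a _ j hj => get_konst_of_le c n j hc hj) _ _ hx, if_pos ha,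
      ih _ hx]

/-- fieldwise `⌈A/4⌉` -/
theorem get_cdiv4 (n A J : ℕ) (hJ : J < 8 ^ n) (h : ∀ j < 8 ^ n, get A j + 3 < 2 ^ 28) :
    get (cdiv4 n A) J = (get A J + 3) / 4 := by
  have h1 : get (A + konst 3 n) J = get A J + 3 := by
    rw [get_add _ _ _ fun j hj => by
      rw [get_konst 3 n j (by norm_num) (by omega)]; exact h j (by omega),
      get_konst 3 n J (by norm_num) hJ]
  unfold cdiv4
  rw [get_and, get_konst _ n J (by norm_num) hJ, ← h1]
  generalize A + konst 3 n = B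
  apply Nat.eq_of_testBit_eq
  intro j
  have h4 : get B J / 4 = get B J >>> 2 := by rw [Nat.shiftRight_eq_div_pow]
  rw [h4, Nat.testBit_and, testBit_get, Nat.testBit_two_pow_sub_one, Nat.testBit_shiftRight,
    Nat.testBit_shiftRight, testBit_get]
  have e : 2 + (28 * J + j) = 28 * J + (2 + j) := by ring
  rw [e]
  by_cases hj : j < 26
  · have h5 : j < 28 := by omega
    have h6 : 2 + j < 28 := by omega
    simp [hj, h5, h6]
  · have h6 : ¬ (2 + j < 28) := by omega
    simp [hj, h6]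

/-- index map of `bor` -/
def bidx : ℕ → ℕ → ℕ
  | 0, J => J
  | i + 1, J => if 1 ≤ J / 8 ^ i % 8 then J - 8 ^ i else bidx i J

theorem bidx_le (i J : ℕ) : bidx i J ≤ J := by
  induction i with
  | zero => exact le_rfl
  | succ i ih =>
    rw [bidx]
    split_ifs
    · exact Nat.sub_le _ _
    · exact ih

theorem get_bor (n i T J : ℕ) (hi : i ≤ n) (hJ : J < 8 ^ n) :
    get (bor n i T) J = get T (bidx i J) := by
  induction i with
  | zero => rfl
  | succ i ih =>
    rw [bor, get_sel n i _ _ _ J hi hJ, bidx]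
    have hb : (Nat.ble 1 (J / 8 ^ i % 8) = true) ↔ 1 ≤ J / 8 ^ i % 8 := Iff.of_eq Nat.ble_eq
    by_cases h : 1 ≤ J / 8 ^ i % 8
    · rw [if_pos (hb.2 h), if_pos h, get_fsl, if_neg]
      intro hlt
      rw [Nat.div_eq_of_lt hlt] at h
      simp at h
    · rw [if_neg (fun h' => h (hb.1 h')), if_neg h]
      exact ih (by omega)

/-- index map of `car` -/
def cidx (n : ℕ) : ℕ → ℕ → ℕ
  | 0, J => J
  | r + 1, J => if J / 8 ^ (n - 1 - r) % 8 ≤ 6 then J + 8 ^ (n - 1 - r) else cidx n r J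

theorem add_pow_lt {n i J : ℕ} (hi : i < n) (hJ : J < 8 ^ n) (h : J / 8 ^ i % 8 ≤ 6) :
    J + 8 ^ i < 8 ^ n := by
  have h1 : 8 ^ n = 8 ^ i * 8 * 8 ^ (n - i - 1) := by
    rw [mul_assoc, mul_comm 8, ← pow_succ, ← pow_add]
    congr 1; omega
  have hp : 0 < 8 ^ i := pow8_pos i
  have h2 : J / 8 ^ i / 8 < 8 ^ (n - i - 1) := by
    rw [Nat.div_div_eq_div_mul, Nat.div_lt_iff_lt_mul (by positivity)]
    rw [h1] at hJ
    calc J < 8 ^ i * 8 * 8 ^ (n - i - 1) := hJ
      _ = 8 ^ (n - i - 1) * (8 ^ i * 8) := by ring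
  have h3 : J / 8 ^ i = 8 * (J / 8 ^ i / 8) + J / 8 ^ i % 8 := (Nat.div_add_mod _ _).symm
  have h4 : J / 8 ^ i + 2 ≤ 8 * 8 ^ (n - i - 1) := by omega
  have h5 : J < 8 ^ i * (J / 8 ^ i + 1) := by
    have := Nat.lt_mul_div_succ J hp
    exact this
  calc J + 8 ^ i < 8 ^ i * (J / 8 ^ i + 1) + 8 ^ i := by omega
    _ = 8 ^ i * (J / 8 ^ i + 2) := by ring
    _ ≤ 8 ^ i * (8 * 8 ^ (n - i - 1)) := Nat.mul_le_mul_left _ h4
    _ = 8 ^ n := by rw [h1]; ring

theorem cidx_lt (n r J : ℕ) (hr : r ≤ n) (hJ : J < 8 ^ n) : cidx n r J < 8 ^ n := by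
  induction r with
  | zero => exact hJ
  | succ r ih =>
    rw [cidx]
    split_ifs with h
    · exact add_pow_lt (by omega) hJ h
    · exact ih (by omega)

theorem get_car (n r T J : ℕ) (hr : r ≤ n) (hJ : J < 8 ^ n) :
    get (car n r T) J = get T (cidx n r J) := by
  induction r with
  | zero => rfl
  | succ r ih =>
    rw [car, get_sel n (n - 1 - r) _ _ _ J (by omega) hJ, cidx]
    have hb : (Nat.ble (J / 8 ^ (n - 1 - r) % 8) 6 = true) ↔ J / 8 ^ (n - 1 - r) % 8 ≤ 6 :=
      Iff.of_eq Nat.ble_eq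
    by_cases h : J / 8 ^ (n - 1 - r) % 8 ≤ 6
    · rw [if_pos (hb.2 h), if_pos h, get_fsr]
    · rw [if_neg (fun h' => h (hb.1 h')), if_neg h]
      exact ih (by omega)

/-- iteration of index maps -/
def itx (f : ℕ → ℕ) : ℕ → ℕ → ℕ
  | 0, J => J
  | m + 1, J => itx f m (f J)

theorem get_iter (n : ℕ) (F : ℕ → ℕ) (f : ℕ → ℕ) (hf : ∀ J < 8 ^ n, f J < 8 ^ n)
    (hF : ∀ T, ∀ J < 8 ^ n, get (F T) J = get T (f J)) (m T J : ℕ) (hJ : J < 8 ^ n) :
    get (iter F m T) J = get T (itx f m J) := by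
  induction m generalizing J with
  | zero => rfl
  | succ m ih => rw [iter, hF _ _ hJ, ih _ (hf _ hJ)]; rfl

theorem itx_lt (n : ℕ) (f : ℕ → ℕ) (hf : ∀ J < 8 ^ n, f J < 8 ^ n) (m J : ℕ) (hJ : J < 8 ^ n) :
    itx f m J < 8 ^ n := by
  induction m generalizing J with
  | zero => exact hJ
  | succ m ih => exact ih _ (hf _ hJ)

/-- index map of the transposition: digit `i` of `J` replaced by `b` -/
def setd (i J b : ℕ) : ℕ := J - (J / 8 ^ i % 8) * 8 ^ i + b * 8 ^ i

theorem digit_mul_le (i J : ℕ) : (J / 8 ^ i % 8) * 8 ^ i ≤ J :=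
  (Nat.mul_le_mul_right _ (Nat.mod_le _ _)).trans (Nat.div_mul_le_self _ _)

theorem get_trn1 (n i a b T J : ℕ) (hi : i < n) (hJ : J < 8 ^ n) :
    get (trn1 n i a b T) J = if J / 8 ^ i % 8 = a then get T (setd i J b) else 0 := by
  rw [trn1, get_and, get_maskP i _ n J hi hJ]
  by_cases h : J / 8 ^ i % 8 = a
  · have hb : Nat.beq (J / 8 ^ i % 8) a = true := by rw [h]; simp
    rw [hb, cond_true, if_pos h, and_ones _ (get_lt _ _)]
    have hle := digit_mul_le i J
    rw [h] at hle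
    unfold setd
    rw [h]
    cases hba : Nat.ble b a
    · have hlt : a < b := by
        by_contra hc
        have : Nat.ble b a = true := (Iff.of_eq Nat.ble_eq).2 (by omega)
        rw [this] at hba
        exact absurd hba (by simp)
      rw [cond_false, get_fsr]
      congr 1
      rw [Nat.sub_mul]
      have : a * 8 ^ i ≤ b * 8 ^ i := Nat.mul_le_mul_right _ hlt.le
      omega
    · have hle' : b ≤ a := (Iff.of_eq Nat.ble_eq).1 hba
      rw [cond_true, get_fsl]
      have h1 : (a - b) * 8 ^ i ≤ a * 8 ^ i := Nat.mul_le_mul_right _ (Nat.sub_le _ _)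
      rw [if_neg (by omega)]
      congr 1
      rw [Nat.sub_mul]
      have : b * 8 ^ i ≤ a * 8 ^ i := Nat.mul_le_mul_right _ hle'
      omega
  · have hb : Nat.beq (J / 8 ^ i % 8) a = false := by
      cases hc : Nat.beq (J / 8 ^ i % 8) a
      · rfl
      · exact absurd (Nat.eq_of_beq_eq_true hc) h
    rw [hb, cond_false, if_neg h, Nat.and_zero]

theorem get_trnb (n i b : ℕ) (l : List ℕ) (k J : ℕ) (hi : i < n) (hJ : J < 8 ^ n) :
    get (trnb n i b k l) J =
      if k ≤ J / 8 ^ i % 8 then get (ent l (J / 8 ^ i % 8 - k)) (setd i J b) else 0 := by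
  induction l generalizing k with
  | nil => simp [trnb, ent]
  | cons T l ih =>
    rw [trnb, get_or, get_trn1 n i k b T J hi hJ, ih (k + 1)]
    rcases lt_trichotomy (J / 8 ^ i % 8) k with h | h | h
    · rw [if_neg (by omega), if_neg (by omega), if_neg (by omega), Nat.or_zero]
    · rw [if_pos h, if_neg (by omega), if_pos (by omega), Nat.or_zero, h, Nat.sub_self]
      rfl
    · rw [if_neg (by omega), if_pos (by omega), if_pos (by omega), Nat.zero_or]
      obtain ⟨m, hm⟩ : ∃ m, J / 8 ^ i % 8 - k = m + 1 := ⟨J / 8 ^ i % 8 - k - 1, by omega⟩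
      have hm' : J / 8 ^ i % 8 - (k + 1) = m := by omega
      rw [hm, hm']
      rfl

theorem get_trn (n i b : ℕ) (l : List ℕ) (J : ℕ) (hi : i < n) (hb : b < 8) (hJ : J < 8 ^ n) :
    get (ent (trn n i l) b) J = get (ent l (J / 8 ^ i % 8)) (setd i J b) := by
  have h : ent (trn n i l) b = trnb n i b 0 l := by
    interval_cases b <;> rfl
  rw [h, get_trnb n i b l 0 J hi hJ, if_pos (Nat.zero_le _), Nat.sub_zero]

theorem setd_lt (n i J b : ℕ) (hi : i < n) (hb : b < 8) (hJ : J < 8 ^ n) : setd i J b < 8 ^ n := by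
  unfold setd
  have h1 : 8 ^ n = 8 ^ i * 8 * 8 ^ (n - i - 1) := by
    rw [mul_assoc, mul_comm 8, ← pow_succ, ← pow_add]
    congr 1; omega
  have hp : 0 < 8 ^ i := pow8_pos i
  have h2 : J / 8 ^ i / 8 < 8 ^ (n - i - 1) := by
    rw [Nat.div_div_eq_div_mul, Nat.div_lt_iff_lt_mul (by positivity)]
    rw [h1] at hJ
    calc J < 8 ^ i * 8 * 8 ^ (n - i - 1) := hJ
      _ = 8 ^ (n - i - 1) * (8 ^ i * 8) := by ring
  have h3 : J / 8 ^ i = 8 * (J / 8 ^ i / 8) + J / 8 ^ i % 8 := (Nat.div_add_mod _ _).symm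
  have h5 : J < 8 ^ i * (J / 8 ^ i + 1) := Nat.lt_mul_div_succ J hp
  have hle := digit_mul_le i J
  have h6 : 8 ^ i * (J / 8 ^ i + 1) = 8 ^ i * (8 * (J / 8 ^ i / 8)) + (J / 8 ^ i % 8) * 8 ^ i + 8 ^ i := by
    rw [h3]
    have : (8 * (J / 8 ^ i / 8) + J / 8 ^ i % 8) / 8 = J / 8 ^ i / 8 := by omega
    have h7 : (8 * (J / 8 ^ i / 8) + J / 8 ^ i % 8) % 8 = J / 8 ^ i % 8 := by omega
    rw [this, h7]
    ring
  have h8 : b * 8 ^ i ≤ 7 * 8 ^ i := Nat.mul_le_mul_right _ (by omega)
  have h9 : 8 ^ i * (8 * (J / 8 ^ i / 8)) + 8 * 8 ^ i ≤ 8 ^ n := by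
    have : J / 8 ^ i / 8 + 1 ≤ 8 ^ (n - i - 1) := h2
    calc 8 ^ i * (8 * (J / 8 ^ i / 8)) + 8 * 8 ^ i = 8 ^ i * 8 * (J / 8 ^ i / 8 + 1) := by ring
      _ ≤ 8 ^ i * 8 * 8 ^ (n - i - 1) := Nat.mul_le_mul_left _ this
      _ = 8 ^ n := h1.symm
  omega

end H98.FPP
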