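import Pool.Agent.H98.FPP.Geo
import Pool.Agent.H98.FPP.Defs

/-!
# MP_ae266a_pr : the lattice, walks and the run of the automaton
-/

namespace H98.FPP

/-- the edge used at time `t` -/
def dec (n t : ℕ) : Edg :=
  if t < n + 1 then .V 0 t
  else if (t - (n + 1)) % (2 * n + 3) ≤ n + 1 then
    .H ((t - (n + 1)) / (2 * n + 3)) ((t - (n + 1)) % (2 * n + 3))
  else .V ((t - (n + 1)) / (2 * n + 3) + 1) (2 * n + 2 - (t - (n + 1)) % (2 * n + 3))

theorem key_dec (n t : ℕ) : key n (dec n t) = t := by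
  unfold dec
  have h2 := Nat.div_add_mod (t - (n + 1)) (2 * n + 3)
  have h3 : (t - (n + 1)) % (2 * n + 3) < 2 * n + 3 := Nat.mod_lt _ (by omega)
  split_ifs with h h1
  · rfl
  · simp only [key]
    generalize (2 * n + 3) * ((t - (n + 1)) / (2 * n + 3)) = P at h2 ⊢
    omega
  · simp only [key]
    generalize (2 * n + 3) * ((t - (n + 1)) / (2 * n + 3)) = P at h2 ⊢
    omega

theorem dec_keyH (n x y : ℕ) (hy : y ≤ n + 1) : dec n (key n (.H x y)) = .H x y := by
  have e : key n (.H x y) - (n + 1) = y + (2 * n + 3) * x := by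
    simp only [key]
    omega
  have h1 : (y + (2 * n + 3) * x) % (2 * n + 3) = y := by
    rw [Nat.add_mul_mod_self_left, Nat.mod_eq_of_lt (by omega)]
  have h2 : (y + (2 * n + 3) * x) / (2 * n + 3) = x := by
    rw [Nat.add_mul_div_left _ _ (by omega), Nat.div_eq_of_lt (by omega), Nat.zero_add]
  unfold dec
  rw [e, h1, h2, if_neg (by simp only [key]; omega), if_pos hy]

theorem dec_keyV (n x y : ℕ) (hy : y ≤ n) : dec n (key n (.V x y)) = .V x y := by
  cases x with
  | zero =>
    unfold dec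
    rw [if_pos (by simp only [key]; omega)]
    rfl
  | succ x =>
    have e : key n (.V (x + 1) y) - (n + 1) = (2 * n + 2 - y) + (2 * n + 3) * x := by
      simp only [key]
      omega
    have h1 : ((2 * n + 2 - y) + (2 * n + 3) * x) % (2 * n + 3) = 2 * n + 2 - y := by
      rw [Nat.add_mul_mod_self_left, Nat.mod_eq_of_lt (by omega)]
    have h2 : ((2 * n + 2 - y) + (2 * n + 3) * x) / (2 * n + 3) = x := by
      rw [Nat.add_mul_div_left _ _ (by omega), Nat.div_eq_of_lt (by omega), Nat.zero_add]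
    unfold dec
    rw [e, h1, h2, if_neg (by simp only [key]; omega), if_neg (by omega)]
    congr 1
    omega

/-- the edge of the lattice -/
def Edg.sym : Edg → Sym2 (ℤ × ℤ)
  | .H x y => s(((x : ℤ), (y : ℤ)), (((x + 1 : ℕ) : ℤ), (y : ℤ)))
  | .V x y => s(((x : ℤ), (y : ℤ)), ((x : ℤ), ((y + 1 : ℕ) : ℤ)))

theorem sym_inj : Function.Injective Edg.sym := by
  intro e f h
  cases e with
  | H x y =>
    cases f with
    | H x' y' =>
      simp only [Edg.sym, Sym2.eq_iff, Prod.mk.injEq] at h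
      congr 1 <;> omega
    | V x' y' =>
      simp only [Edg.sym, Sym2.eq_iff, Prod.mk.injEq] at h
      omega
  | V x y =>
    cases f with
    | H x' y' =>
      simp only [Edg.sym, Sym2.eq_iff, Prod.mk.injEq] at h
      omega
    | V x' y' =>
      simp only [Edg.sym, Sym2.eq_iff, Prod.mk.injEq] at h
      congr 1 <;> omega

theorem sym_mem (e : Edg) : e.sym ∈ lattice.edgeSet := by
  cases e with
  | H x y => simp [Edg.sym, lattice]
  | V x y => simp [Edg.sym, lattice]

/-- the edge used at time `t`, as an edge of the lattice -/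
def edgeS (n t : ℕ) : Sym2 (ℤ × ℤ) := (dec n t).sym

theorem edgeS_inj (n : ℕ) : Function.Injective (edgeS n) := by
  intro s t h
  have := sym_inj h
  rw [← key_dec n s, ← key_dec n t, this]

theorem edgeS_mem (n t : ℕ) : edgeS n t ∈ lattice.edgeSet := sym_mem _

/-- `(x,y)` can be reached by a walk, using only edges of time `< N`, of cost `≤ t` -/
def Rr (n N : ℕ) (β : ℕ → ℕ) (x y : ℕ) (t : ℤ) : Prop :=
  ∃ (p : lattice.Walk (0, 0) ((x : ℤ), (y : ℤ))) (L : List ℕ), (∀ s ∈ L, s < N) ∧
    p.edges = L.map (edgeS n) ∧ (L.map fun s => (2 * (β s : ℤ) + 1)).sum ≤ t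

theorem Rr.snoc {n N : ℕ} {β : ℕ → ℕ} {x y x' y' : ℕ} {t : ℤ} (s : ℕ) (hs : s < N)
    (h : Rr n N β x y t)
    (he : edgeS n s = s(((x : ℤ), (y : ℤ)), ((x' : ℤ), (y' : ℤ)))) :
    Rr n N β x' y' (t + (2 * β s + 1)) := by
  obtain ⟨p, L, h1, h2, h3⟩ := h
  have hadj : lattice.Adj ((x : ℤ), (y : ℤ)) ((x' : ℤ), (y' : ℤ)) := by
    have := edgeS_mem n s
    rw [he] at this
    exact this
  refine ⟨p.concat hadj, L ++ [s], ?_, ?_, ?_⟩
  · intro r hr
    simp only [List.mem_append, List.mem_singleton] at hr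
    rcases hr with hr | rfl
    · exact h1 r hr
    · exact hs
  · rw [SimpleGraph.Walk.edges_concat, h2, List.map_append, List.map_singleton, he]
    simp
  · simp only [List.map_append, List.map_singleton, List.sum_append, List.sum_singleton]
    linarith

theorem geoR (n m : ℕ) {β : ℕ → ℕ} (hβ : ∀ t, β t < 4) :
    Geo n m β (Rr n ((n + 1) + (2 * n + 3) * m) β) where
  bin := hβ
  mono := by
    rintro x y t t' ⟨p, L, h1, h2, h3⟩ h
    exact ⟨p, L, h1, h2, h3.trans h⟩
  zero := ⟨.nil, [], by simp, by simp, by simp⟩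
  hor := by
    intro x y t hx hy h
    have hk : key n (.H x y) < (n + 1) + (2 * n + 3) * m := by
      have : (2 * n + 3) * (x + 1) ≤ (2 * n + 3) * m := Nat.mul_le_mul_left _ hx
      rw [Nat.mul_add_one] at this
      simp only [key]
      omega
    refine Rr.snoc _ hk h ?_
    rw [edgeS, dec_keyH n x y hy]
    rfl
  up := by
    intro x y t hx hy h
    have hk : key n (.V x y) < (n + 1) + (2 * n + 3) * m := by
      cases x with
      | zero => simp only [key]; omega
      | succ x =>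
        have : (2 * n + 3) * (x + 1) ≤ (2 * n + 3) * m := Nat.mul_le_mul_left _ hx
        rw [Nat.mul_add_one] at this
        simp only [key]
        omega
    refine Rr.snoc _ hk h ?_
    rw [edgeS, dec_keyV n x y hy]
    rfl
  down := by
    intro x y t hx hy h
    have hk : key n (.V x y) < (n + 1) + (2 * n + 3) * m := by
      cases x with
      | zero => simp only [key]; omega
      | succ x =>
        have : (2 * n + 3) * (x + 1) ≤ (2 * n + 3) * m := Nat.mul_le_mul_left _ hx
        rw [Nat.mul_add_one] at this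
        simp only [key]
        omega
    refine Rr.snoc _ hk h ?_
    rw [edgeS, dec_keyV n x y hy]
    exact Sym2.eq_swap

/-! ### the run -/

/-- state at time `t` -/
def run (n : ℕ) (β : ℕ → ℕ) : ℕ → St
  | 0 => .idle (n + 1)
  | t + 1 => step n (run n β t) (β t)

variable {n m : ℕ} {β : ℕ → ℕ} {R : ℕ → ℕ → ℤ → Prop}

theorem run_inv (g : Geo n m β R) (t : ℕ) (ht : t ≤ (n + 1) + (2 * n + 3) * m) :
    Inv n R (run n β t) ∧ pos n (run n β t) = t := by
  have h0 : ∀ y ≤ n + 1, R 0 y (7 * y) := by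
    intro y
    induction y with
    | zero => intro _; simpa using g.zero
    | succ y ih =>
      intro hy
      refine g.up7 (Nat.zero_le _) (by omega) (ih (by omega)) ?_
      push_cast
      linarith
  induction t with
  | zero => exact ⟨⟨by omega, le_rfl⟩, by simp [run, pos]⟩
  | succ t ih =>
    obtain ⟨h1, h2⟩ := ih (by omega)
    have := Inv_step g h1 (by omega) h0
    rw [h2] at this
    exact this

theorem run_end (g : Geo n m β R) :
    ∃ u a J, run n β ((n + 1) + (2 * n + 3) * m) = .s0 m u a J ∧ R m 0 u := by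
  obtain ⟨h1, h2⟩ := run_inv g _ le_rfl
  generalize run n β ((n + 1) + (2 * n + 3) * m) = σ at h1 h2
  have hmod : ∀ x c : ℕ, c < 2 * n + 3 →
      (n + 1) + (2 * n + 3) * x + c = (n + 1) + (2 * n + 3) * m → c = 0 ∧ x = m := by
    intro x c hc h
    have h' : (2 * n + 3) * x + c = (2 * n + 3) * m := by omega
    have hc0 : c = 0 := by
      have h3 := congrArg (· % (2 * n + 3)) h'
      simp only [Nat.mul_add_mod, Nat.mul_mod_right] at h3
      rwa [Nat.mod_eq_of_lt hc] at h3
    subst hc0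
    exact ⟨rfl, Nat.eq_of_mul_eq_mul_left (by omega : 0 < 2 * n + 3) h'⟩
  cases σ with
  | idle k =>
    obtain ⟨hk, _⟩ := h1
    simp only [pos] at h2
    omega
  | s0 x u a J =>
    simp only [pos] at h2
    obtain ⟨-, rfl⟩ := hmod x 0 (by omega) (by omega)
    exact ⟨u, a, J, rfl, h1.2.2.1⟩
  | sh x i u J dl =>
    simp only [pos] at h2
    have hi : i ≤ n := h1.1
    have := (hmod x (i + 1) (by omega) (by omega)).1
    omega
  | sv x i u J a =>
    simp only [pos] at h2
    have hi : i ≤ n := h1.1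
    have := (hmod x (2 * n + 2 - i) (by omega) (by omega)).1
    omega

theorem run_congr {β' : ℕ → ℕ} (t : ℕ) (h : ∀ s < t, β s = β' s) : run n β t = run n β' t := by
  induction t with
  | zero => rfl
  | succ t ih => rw [run, run, ih (fun s hs => h s (by omega)), h t (by omega)]

/-- a finite sequence of bins as a function on `ℕ` -/
def ext {N : ℕ} (b : Fin N → Fin 4) (t : ℕ) : ℕ := if h : t < N then (b ⟨t, h⟩ : ℕ) else 0

theorem ext_lt {N : ℕ} (b : Fin N → Fin 4) (t : ℕ) : ext b t < 4 := by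
  unfold ext
  split_ifs with h
  · exact (b _).2
  · norm_num

theorem ext_snoc_lt {N : ℕ} (b : Fin N → Fin 4) (e : Fin 4) {t : ℕ} (ht : t < N) :
    ext (Fin.snoc b e : Fin (N + 1) → Fin 4) t = ext b t := by
  unfold ext
  rw [dif_pos (by omega), dif_pos ht]
  have : (⟨t, by omega⟩ : Fin (N + 1)) = Fin.castSucc ⟨t, ht⟩ := rfl
  rw [this, Fin.snoc_castSucc (α := fun _ => Fin 4)]

theorem ext_snoc_self {N : ℕ} (b : Fin N → Fin 4) (e : Fin 4) :
    ext (Fin.snoc b e : Fin (N + 1) → Fin 4) N = e := by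
  unfold ext
  rw [dif_pos (by omega)]
  have : (⟨N, by omega⟩ : Fin (N + 1)) = Fin.last N := rfl
  rw [this, Fin.snoc_last (α := fun _ => Fin 4)]

theorem sum_run {M c : ℕ} {H : ℕ → ℕ → ℕ}
    (hH : ∀ a < 8, ∀ J < 8 ^ n, FF M (AF n M H n) a J ≤ H a J + c) (N : ℕ)
    (hN : N ≤ (n + 1) + (2 * n + 3) * m) :
    ∑ b : Fin N → Fin 4, Phi n M (c - 26 * M * (n + 1)) H (run n (ext b) N) ≤
      4 ^ N * (H 7 (8 ^ n - 1) : ℤ) := by
  induction N with
  | zero => simp [run, Phi]
  | succ N ih =>
    rw [← (Fin.snocEquiv (fun _ => Fin 4)).sum_comp, Fintype.sum_prod_type, Finset.sum_comm]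
    have hstep : ∀ b : Fin N → Fin 4,
        ∑ e : Fin 4, Phi n M (c - 26 * M * (n + 1)) H
          (run n (ext (Fin.snocEquiv (fun _ => Fin 4) (e, b))) (N + 1)) ≤
        4 * Phi n M (c - 26 * M * (n + 1)) H (run n (ext b) N) := by
      intro b
      have e1 : ∀ e : Fin 4, run n (ext (Fin.snocEquiv (fun _ => Fin 4) (e, b))) (N + 1) =
          step n (run n (ext b) N) e := by
        intro e
        have e2 : Fin.snocEquiv (fun _ : Fin (N + 1) => Fin 4) (e, b) = Fin.snoc b e := rfl
        rw [e2, run, ext_snoc_self, run_congr N (fun s hs => ext_snoc_lt b e hs)]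
      simp only [e1, Fin.sum_univ_four]
      have hinv := run_inv (geoR n m (ext_lt b)) N (by omega)
      refine Phi_step hH _ ?_ ?_ ?_
      · intro x u a J hσ
        rw [hσ] at hinv
        exact ⟨hinv.1.1, hinv.1.2.1⟩
      · intro x i u J dl hσ
        rw [hσ] at hinv
        exact hinv.1.1
      · intro x i u J a hσ
        rw [hσ] at hinv
        exact ⟨hinv.1.1, hinv.1.2.1⟩
    calc _ ≤ ∑ b : Fin N → Fin 4, 4 * Phi n M (c - 26 * M * (n + 1)) H (run n (ext b) N) :=
          Finset.sum_le_sum fun b _ => hstep b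
      _ = 4 * ∑ b : Fin N → Fin 4, Phi n M (c - 26 * M * (n + 1)) H (run n (ext b) N) := by
          rw [Finset.mul_sum]
      _ ≤ 4 * (4 ^ N * (H 7 (8 ^ n - 1) : ℤ)) := by
          have := ih (by omega)
          linarith
      _ = _ := by ring

/-- a family of walks from `(0,0)` to `(m,0)` of small average cost -/
theorem avg_walks {M c : ℕ} {h : List ℕ} (hchk : chk n M c h = true) (hc : c < 2 ^ 27)
    (hM : 4 * (2 ^ 24 + 20 * M * (2 * n + 3)) + 3 < 2 ^ 28) (m : ℕ) :
    ∃ γ : (Fin ((n + 1) + (2 * n + 3) * m) → Fin 4) → List ℕ,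
      (∀ b, (∀ s ∈ γ b, s < (n + 1) + (2 * n + 3) * m) ∧
        ∃ p : lattice.Walk (0, 0) ((m : ℤ), 0), p.edges = (γ b).map (edgeS n)) ∧
      M * ∑ b, ((γ b).map fun s => (2 * (ext b s : ℤ) + 1)).sum ≤
        4 ^ ((n + 1) + (2 * n + 3) * m) * (2 ^ 24 + ((c : ℤ) - 26 * M * (n + 1)) * m) := by
  obtain ⟨H, hH⟩ := chk_sound hchk hc hM
  have hend := fun b : Fin ((n + 1) + (2 * n + 3) * m) → Fin 4 => run_end (geoR n m (ext_lt b))
  choose u a J hrun hR using hend
  choose p γ h1 h2 h3 using hR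
  refine ⟨γ, fun b => ⟨h1 b, ?_⟩, ?_⟩
  · exact ⟨p b, h2 b⟩
  · have hs := sum_run (m := m) (fun a ha J hJ => (hH a ha J hJ).2) _ le_rfl
    have h7 := (hH 7 (by norm_num) (8 ^ n - 1) (by have := pow8_pos n; omega)).1
    have hle : ∀ b, (M : ℤ) * ((γ b).map fun s => (2 * (ext b s : ℤ) + 1)).sum -
        (c - 26 * M * (n + 1)) * m ≤
        Phi n M (c - 26 * M * (n + 1)) H (run n (ext b) ((n + 1) + (2 * n + 3) * m)) := by
      intro b
      rw [hrun b]
      simp only [Phi]
      have : (M : ℤ) * ((γ b).map fun s => (2 * (ext b s : ℤ) + 1)).sum ≤ M * u b :=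
        mul_le_mul_of_nonneg_left (h3 b) (by positivity)
      have h8 : (0 : ℤ) ≤ H (a b) (J b) := by positivity
      linarith
    have hsum := (Finset.sum_le_sum fun b (_ : b ∈ Finset.univ) => hle b).trans hs
    rw [Finset.sum_sub_distrib, ← Finset.mul_sum, Finset.sum_const, Finset.card_univ,
      Fintype.card_fun, Fintype.card_fin, Fintype.card_fin, nsmul_eq_mul] at hsum
    push_cast at hsum
    have h9 : (4 : ℤ) ^ ((n + 1) + (2 * n + 3) * m) * (H 7 (8 ^ n - 1) : ℤ) ≤
        4 ^ ((n + 1) + (2 * n + 3) * m) * 2 ^ 24 := by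
      refine mul_le_mul_of_nonneg_left ?_ (by positivity)
      exact_mod_cast h7.le
    linarith

end H98.FPP
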