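import Pool.Agent.H98.FPP.Path

/-!
# MP_ae266a_pr : expectation of the passage time
-/

open MeasureTheory ProbabilityTheory Filter Topology Set

namespace H98.FPP

instance (u v : ℤ × ℤ) : Countable (lattice.Walk u v) :=
  Function.Injective.countable (f := fun p : lattice.Walk u v => p.support)
    (fun _ _ h => SimpleGraph.Walk.ext_support h)

instance : Countable (Sym2 (ℤ × ℤ)) :=
  (Quot.mk_surjective : Function.Surjective (Quot.mk (Sym2.Rel (ℤ × ℤ)))).countable

/-- i.i.d. uniform weights on the edges of the lattice -/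
structure IsUnif {Ω : Type*} [MeasurableSpace Ω] (P : Measure Ω)
    (w : Sym2 (ℤ × ℤ) → Ω → ℝ) : Prop where
  meas : ∀ e ∈ lattice.edgeSet, Measurable (w e)
  indep : iIndepFun (fun e : lattice.edgeSet => w e) P
  law : ∀ e ∈ lattice.edgeSet, P.map (w e) = volume.restrict (Icc (0 : ℝ) 1)

/-- indicator of the bin `j` -/
noncomputable def bin (j : Fin 4) (x : ℝ) : ℝ :=
  (Ico ((j : ℝ) / 4) (((j : ℝ) + 1) / 4)).indicator (fun _ => (1 : ℝ)) x

theorem bin_meas (j : Fin 4) : Measurable (bin j) :=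
  measurable_const.indicator measurableSet_Ico

theorem bin_nonneg (j : Fin 4) (x : ℝ) : 0 ≤ bin j x := indicator_nonneg (fun _ _ => zero_le_one) x

theorem bin_le_one (j : Fin 4) (x : ℝ) : bin j x ≤ 1 :=
  indicator_apply_le' (fun _ => le_rfl) (fun _ => zero_le_one)

theorem bin_sum {x : ℝ} (hx : x ∈ Ico (0 : ℝ) 1) : ∑ j : Fin 4, bin j x = 1 := by
  obtain ⟨h0, h1⟩ := hx
  have key : ∀ j : Fin 4, bin j x = if ((j : ℝ) / 4 ≤ x ∧ x < ((j : ℝ) + 1) / 4) then 1 else 0 := by
    intro j
    simp [bin, indicator_apply, mem_Ico]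
  simp only [key, Fin.sum_univ_four]
  have e0 : ((0 : Fin 4) : ℝ) = 0 := by simp
  have e1 : ((1 : Fin 4) : ℝ) = 1 := by simp
  have e2 : ((2 : Fin 4) : ℝ) = 2 := by simp
  have e3 : ((3 : Fin 4) : ℝ) = 3 := by norm_num [Fin.val_ofNat]
  rw [e0, e1, e2, e3]
  by_cases c1 : x < 1 / 4
  · rw [if_pos ⟨by linarith, by linarith⟩, if_neg (by rintro ⟨h, -⟩; linarith),
      if_neg (by rintro ⟨h, -⟩; linarith), if_neg (by rintro ⟨h, -⟩; linarith)]
    norm_num
  · by_cases c2 : x < 1 / 2
    · rw [if_neg (by rintro ⟨-, h⟩; linarith), if_pos ⟨by linarith, by linarith⟩,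
        if_neg (by rintro ⟨h, -⟩; linarith), if_neg (by rintro ⟨h, -⟩; linarith)]
      norm_num
    · by_cases c3 : x < 3 / 4
      · rw [if_neg (by rintro ⟨-, h⟩; linarith), if_neg (by rintro ⟨-, h⟩; linarith),
          if_pos ⟨by linarith, by linarith⟩, if_neg (by rintro ⟨h, -⟩; linarith)]
        norm_num
      · rw [if_neg (by rintro ⟨-, h⟩; linarith), if_neg (by rintro ⟨-, h⟩; linarith),
          if_neg (by rintro ⟨-, h⟩; linarith), if_pos ⟨by linarith, by linarith⟩]
        norm_num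

theorem int_bin (j : Fin 4) : ∫ x in Icc (0 : ℝ) 1, bin j x = 1 / 4 := by
  have hj : (j : ℝ) ≤ 3 := by
    have := j.2
    have : (j : ℕ) ≤ 3 := by omega
    exact_mod_cast this
  have hj0 : (0 : ℝ) ≤ j := by positivity
  have hsub : Ico ((j : ℝ) / 4) (((j : ℝ) + 1) / 4) ⊆ Icc (0 : ℝ) 1 := by
    intro x hx
    rw [mem_Ico] at hx
    constructor
    · linarith [hx.1]
    · linarith [hx.2]
  unfold bin
  rw [setIntegral_indicator measurableSet_Ico, inter_eq_self_of_subset_right hsub]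
  simp
  ring_nf
  norm_num

theorem int_bin_mul (j : Fin 4) : ∫ x in Icc (0 : ℝ) 1, bin j x * x = 1 / 4 * ((2 * j + 1) / 8) := by
  have hj : (j : ℝ) ≤ 3 := by
    have := j.2
    have : (j : ℕ) ≤ 3 := by omega
    exact_mod_cast this
  have hj0 : (0 : ℝ) ≤ j := by positivity
  have hsub : Ico ((j : ℝ) / 4) (((j : ℝ) + 1) / 4) ⊆ Icc (0 : ℝ) 1 := by
    intro x hx
    rw [mem_Ico] at hx
    constructor
    · linarith [hx.1]
    · linarith [hx.2]
  have e : ∀ x : ℝ, bin j x * x = (Ico ((j : ℝ) / 4) (((j : ℝ) + 1) / 4)).indicator (fun x => x) x := by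
    intro x
    unfold bin
    by_cases hx : x ∈ Ico ((j : ℝ) / 4) (((j : ℝ) + 1) / 4)
    · rw [indicator_of_mem hx, indicator_of_mem hx, one_mul]
    · rw [indicator_of_notMem hx, indicator_of_notMem hx, zero_mul]
  simp only [e]
  rw [setIntegral_indicator measurableSet_Ico, inter_eq_self_of_subset_right hsub,
    integral_Ico_eq_integral_Ioc, ← intervalIntegral.integral_of_le (by linarith), integral_id]
  ring

variable {Ω : Type*} [MeasurableSpace Ω] {P : Measure Ω} {w : Sym2 (ℤ × ℤ) → Ω → ℝ}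

theorem IsUnif.ae_mem (h : IsUnif P w) : ∀ᵐ ω ∂P, ∀ e ∈ lattice.edgeSet, w e ω ∈ Ico (0 : ℝ) 1 := by
  have h1 : ∀ e : lattice.edgeSet, ∀ᵐ ω ∂P, w e ω ∈ Ico (0 : ℝ) 1 := by
    intro e
    have h2 : ∀ᵐ x ∂(P.map (w e)), x ∈ Ico (0 : ℝ) 1 := by
      rw [h.law e e.2, ← restrict_Ico_eq_restrict_Icc]
      exact ae_restrict_mem measurableSet_Ico
    exact ae_of_ae_map (h.meas e e.2).aemeasurable h2
  filter_upwards [ae_all_iff.2 h1] with ω hω e he
  exact hω ⟨e, he⟩

/-- the weights of the edges used by the strategy -/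
theorem IsUnif.indep' (h : IsUnif P w) (n N : ℕ) :
    iIndepFun (fun t : Fin N => w (edgeS n t)) P := by
  have hinj : Function.Injective
      (fun t : Fin N => (⟨edgeS n t, edgeS_mem n t⟩ : lattice.edgeSet)) := by
    intro s t hst
    simp only [Subtype.mk.injEq] at hst
    exact Fin.ext (edgeS_inj n hst)
  exact h.indep.precomp hinj

theorem IsUnif.int_prod (h : IsUnif P w) (n N : ℕ) (b : Fin N → Fin 4) {s : ℕ} (hs : s < N) :
    ∫ ω, (∏ t : Fin N, bin (b t) (w (edgeS n t) ω)) * w (edgeS n s) ω ∂P =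
      (1 / 4) ^ N * ((2 * (ext b s : ℝ) + 1) / 8) := by
  set f : Fin N → ℝ → ℝ := fun t x => bin (b t) x * (if (t : ℕ) = s then x else 1) with hf
  have hfm : ∀ t, Measurable (f t) := by
    intro t
    refine (bin_meas _).mul ?_
    split_ifs
    · exact measurable_id
    · exact measurable_const
  have e1 : ∀ ω, (∏ t : Fin N, bin (b t) (w (edgeS n t) ω)) * w (edgeS n s) ω =
      ∏ t : Fin N, f t (w (edgeS n t) ω) := by
    intro ω
    simp only [hf]
    rw [Finset.prod_mul_distrib]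
    congr 1
    rw [Finset.prod_eq_single ⟨s, hs⟩]
    · simp
    · intro t _ ht
      rw [if_neg]
      intro hc
      exact ht (Fin.ext hc)
    · intro hc
      exact absurd (Finset.mem_univ _) hc
  simp only [e1]
  rw [(h.indep' n N).integral_fun_prod_comp
    (fun t => (h.meas _ (edgeS_mem n t)).aemeasurable)
    (fun t => (hfm t).aestronglyMeasurable)]
  have e2 : ∀ t : Fin N, ∫ ω, f t (w (edgeS n t) ω) ∂P =
      1 / 4 * (if (t : ℕ) = s then (2 * (ext b s : ℝ) + 1) / 8 else 1) := by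
    intro t
    rw [← integral_map (f := f t) (φ := w (edgeS n t)) (h.meas _ (edgeS_mem n t)).aemeasurable
      (hfm t).aestronglyMeasurable, h.law _ (edgeS_mem n t)]
    simp only [hf]
    split_ifs with hts
    · have e3 : ext b s = (b t : ℕ) := by
        unfold ext
        rw [dif_pos hs]
        congr 2
        exact Fin.ext hts.symm
      rw [e3]
      exact int_bin_mul _
    · simp only [mul_one]
      exact int_bin _
  simp only [e2]
  rw [Finset.prod_mul_distrib, Finset.prod_const, Finset.card_univ, Fintype.card_fin]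
  congr 1
  rw [Finset.prod_eq_single ⟨s, hs⟩]
  · simp
  · intro t _ ht
    rw [if_neg]
    intro hc
    exact ht (Fin.ext hc)
  · intro hc
    exact absurd (Finset.mem_univ _) hc

theorem prod_bin_sum {N : ℕ} {x : Fin N → ℝ} (hx : ∀ t, x t ∈ Ico (0 : ℝ) 1) :
    ∑ b : Fin N → Fin 4, ∏ t, bin (b t) (x t) = 1 := by
  have := Finset.prod_univ_sum (fun _ : Fin N => (Finset.univ : Finset (Fin 4)))
    (fun t j => bin j (x t))
  rw [Fintype.piFinset_univ] at this
  rw [← this]
  exact Finset.prod_eq_one fun t _ => bin_sum (hx t)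

theorem passage_le {v : Sym2 (ℤ × ℤ) → ℝ} (hv : ∀ e ∈ lattice.edgeSet, 0 ≤ v e) {m : ℕ}
    (p : lattice.Walk (0, 0) ((m : ℤ), 0)) : passage v m ≤ (p.edges.map v).sum := by
  refine ciInf_le ⟨0, ?_⟩ p
  rintro _ ⟨q, rfl⟩
  refine List.sum_nonneg ?_
  intro a ha
  obtain ⟨e, he, rfl⟩ := List.mem_map.1 ha
  exact hv e (q.edges_subset_edgeSet he)

theorem passage_nonneg {v : Sym2 (ℤ × ℤ) → ℝ} (hv : ∀ e ∈ lattice.edgeSet, 0 ≤ v e) (m : ℕ) :
    0 ≤ passage v m := by
  refine Real.iInf_nonneg fun q => List.sum_nonneg ?_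
  intro a ha
  obtain ⟨e, he, rfl⟩ := List.mem_map.1 ha
  exact hv e (q.edges_subset_edgeSet he)

theorem list_int {F : Ω → ℝ} {X : ℕ → Ω → ℝ} (L : List ℕ) (c : ℕ → ℝ)
    (h : ∀ s ∈ L, Integrable (fun ω => F ω * X s ω) P)
    (h2 : ∀ s ∈ L, ∫ ω, F ω * X s ω ∂P = c s) :
    Integrable (fun ω => F ω * (L.map fun s => X s ω).sum) P ∧
      ∫ ω, F ω * (L.map fun s => X s ω).sum ∂P = (L.map c).sum := by
  induction L with
  | nil => simp
  | cons s L ih =>
    obtain ⟨i1, i2⟩ := ih (fun r hr => h r (List.mem_cons_of_mem _ hr))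
      (fun r hr => h2 r (List.mem_cons_of_mem _ hr))
    have i3 := h s List.mem_cons_self
    have i4 := h2 s List.mem_cons_self
    have e : ∀ ω, F ω * ((s :: L).map fun s => X s ω).sum =
        F ω * X s ω + F ω * (L.map fun s => X s ω).sum := by
      intro ω
      rw [List.map_cons, List.sum_cons]
      ring
    simp only [e]
    refine ⟨i3.add i1, ?_⟩
    rw [integral_add i3 i1, i4, i2, List.map_cons, List.sum_cons]

theorem walk_exists (m : ℕ) : Nonempty (lattice.Walk (0, 0) ((m : ℤ), 0)) := by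
  induction m with
  | zero => exact ⟨.nil⟩
  | succ m ih =>
    obtain ⟨p⟩ := ih
    refine ⟨p.concat ?_⟩
    simp [lattice]

theorem IsUnif.meas_sum (h : IsUnif P w) {u v : ℤ × ℤ} (p : lattice.Walk u v) :
    Measurable fun ω => (p.edges.map fun e => w e ω).sum := by
  have key : ∀ L : List (Sym2 (ℤ × ℤ)), (∀ e ∈ L, e ∈ lattice.edgeSet) →
      Measurable fun ω => (L.map fun e => w e ω).sum := by
    intro L
    induction L with
    | nil => intro _; simp
    | cons e L ih =>
      intro hL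
      simp only [List.map_cons, List.sum_cons]
      exact (h.meas e (hL e List.mem_cons_self)).add
        (ih fun r hr => hL r (List.mem_cons_of_mem _ hr))
  exact key _ fun e he => p.edges_subset_edgeSet he

theorem IsUnif.meas_passage (h : IsUnif P w) (m : ℕ) :
    Measurable fun ω => passage (fun e => w e ω) m := by
  unfold passage
  exact Measurable.iInf fun p => h.meas_sum p

theorem IsUnif.integrable (h : IsUnif P w) [IsProbabilityMeasure P] (m : ℕ) :
    Integrable (fun ω => passage (fun e => w e ω) m) P := by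
  obtain ⟨p⟩ := walk_exists m
  refine Integrable.of_bound (h.meas_passage m).aestronglyMeasurable (p.edges.length : ℝ) ?_
  filter_upwards [h.ae_mem] with ω hω
  rw [Real.norm_of_nonneg (passage_nonneg (fun e he => (hω e he).1) m)]
  refine (passage_le (fun e he => (hω e he).1) p).trans ?_
  have key : ∀ L : List (Sym2 (ℤ × ℤ)), (∀ e ∈ L, e ∈ lattice.edgeSet) →
      (L.map fun e => w e ω).sum ≤ (L.length : ℝ) := by
    intro L
    induction L with
    | nil => intro _; simp
    | cons e L ih =>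
      intro hL
      simp only [List.map_cons, List.sum_cons, List.length_cons]
      have h1 := (hω e (hL e List.mem_cons_self)).2
      have h2 := ih fun r hr => hL r (List.mem_cons_of_mem _ hr)
      push_cast
      linarith
  exact key _ fun e he => p.edges_subset_edgeSet he

/-- the main estimate -/
theorem IsUnif.expect (h : IsUnif P w) [IsProbabilityMeasure P] {n M c : ℕ} {l : List ℕ}
    (hchk : chk n M c l = true) (hc : c < 2 ^ 27)
    (hM : 4 * (2 ^ 24 + 20 * M * (2 * n + 3)) + 3 < 2 ^ 28) (hM0 : 0 < M) (m : ℕ) :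
    ∫ ω, passage (fun e => w e ω) m ∂P ≤
      (2 ^ 24 + ((c : ℝ) - 26 * M * (n + 1)) * m) / (8 * M) := by
  obtain ⟨γ, h1, h2⟩ := avg_walks hchk hc hM m
  generalize hN : (n + 1) + (2 * n + 3) * m = N at γ h1 h2
  set F : (Fin N → Fin 4) → Ω → ℝ := fun b ω => ∏ t : Fin N, bin (b t) (w (edgeS n t) ω) with hF
  have hF0 : ∀ b ω, 0 ≤ F b ω := fun b ω => Finset.prod_nonneg fun t _ => bin_nonneg _ _
  have hF1 : ∀ b ω, F b ω ≤ 1 := fun b ω =>
    Finset.prod_le_one (fun t _ => bin_nonneg _ _) fun t _ => bin_le_one _ _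
  have hFm : ∀ b, Measurable (F b) := fun b =>
    Finset.measurable_prod _ fun t _ => (bin_meas _).comp (h.meas _ (edgeS_mem n t))
  have hint : ∀ b s, Integrable (fun ω => F b ω * w (edgeS n s) ω) P := by
    intro b s
    refine Integrable.of_bound
      ((hFm b).mul (h.meas _ (edgeS_mem n s))).aestronglyMeasurable 1 ?_
    filter_upwards [h.ae_mem] with ω hω
    obtain ⟨h3, h4⟩ := hω _ (edgeS_mem n s)
    rw [Real.norm_of_nonneg (mul_nonneg (hF0 b ω) h3)]
    nlinarith [hF0 b ω, hF1 b ω]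
  have hlist := fun b => list_int (P := P) (F := F b) (X := fun s => w (edgeS n s)) (γ b)
    (fun s => (1 / 4) ^ N * ((2 * (ext b s : ℝ) + 1) / 8)) (fun s _ => hint b s)
    (fun s hs => h.int_prod n N b ((h1 b).1 s hs))
  have hle : ∀ᵐ ω ∂P, passage (fun e => w e ω) m ≤
      ∑ b, F b ω * ((γ b).map fun s => w (edgeS n s) ω).sum := by
    filter_upwards [h.ae_mem] with ω hω
    have hs : ∑ b, F b ω = 1 := prod_bin_sum fun t => hω _ (edgeS_mem n t)
    calc passage (fun e => w e ω) m = ∑ b, F b ω * passage (fun e => w e ω) m := by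
          rw [← Finset.sum_mul, hs, one_mul]
      _ ≤ ∑ b, F b ω * ((γ b).map fun s => w (edgeS n s) ω).sum := by
          refine Finset.sum_le_sum fun b _ => mul_le_mul_of_nonneg_left ?_ (hF0 b ω)
          obtain ⟨p, hp⟩ := (h1 b).2
          have := passage_le (fun e he => (hω e he).1) p
          rw [hp, List.map_map] at this
          exact this
  have hI := integral_mono_ae (h.integrable m)
    (integrable_finsetSum Finset.univ fun b _ => (hlist b).1) hle
  rw [integral_finsetSum _ fun b _ => (hlist b).1] at hI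
  refine hI.trans ?_
  simp only [fun b => (hlist b).2]
  have e : ∀ b : Fin N → Fin 4, ((γ b).map fun s => (1 / 4 : ℝ) ^ N * ((2 * (ext b s : ℝ) + 1) / 8)).sum =
      (1 / 4) ^ N / 8 * (((γ b).map fun s => (2 * (ext b s : ℤ) + 1)).sum : ℤ) := by
    intro b
    induction γ b with
    | nil => simp
    | cons s L ih =>
      rw [List.map_cons, List.sum_cons, ih, List.map_cons, List.sum_cons]
      push_cast
      ring
  simp only [e]
  rw [← Finset.mul_sum]
  have hM' : (0 : ℝ) < M := by exact_mod_cast hM0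
  have h3 : (M : ℝ) * ∑ b, ((((γ b).map fun s => (2 * (ext b s : ℤ) + 1)).sum : ℤ) : ℝ) ≤
      4 ^ N * (2 ^ 24 + ((c : ℝ) - 26 * M * (n + 1)) * m) := by
    rw [← Int.cast_sum]
    exact_mod_cast h2
  rw [le_div_iff₀ (by positivity)]
  have h4 : ((1 : ℝ) / 4) ^ N * 4 ^ N = 1 := by
    rw [← mul_pow]; norm_num
  generalize ∑ b, ((((γ b).map fun s => (2 * (ext b s : ℤ) + 1)).sum : ℤ) : ℝ) = S at h3 ⊢
  calc (1 / 4 : ℝ) ^ N / 8 * S * (8 * M) = (1 / 4 : ℝ) ^ N * (M * S) := by ring
    _ ≤ (1 / 4 : ℝ) ^ N * (4 ^ N * (2 ^ 24 + ((c : ℝ) - 26 * M * (n + 1)) * m)) :=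
        mul_le_mul_of_nonneg_left h3 (by positivity)
    _ = _ := by rw [← mul_assoc, h4, one_mul]

end H98.FPP
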